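import Pool.Agent.H8.EF.Stuf

/-!
# Linear independence of all values implies algebraic independence of the power sums
-/

set_option autoImplicit false

open Set

namespace Pool.Agent.H8.EF

open Pool.Agent.H8.TS (Z P Big)

/-- The product of letters as a list of words. -/
def V : List ℕ → List (List ℕ)
  | [] => [[]]
  | k :: u => (V u).flatMap (stf k)

theorem V_big : ∀ {u : List ℕ}, Big u → ∀ w ∈ V u, Big w := by
  intro u
  induction u with
  | nil =>
    intro _ w hw
    simp only [V, List.mem_singleton] at hw
    subst hw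
    intro a ha
    simp at ha
  | cons k u ih =>
    intro hu w hw
    simp only [V, List.mem_flatMap] at hw
    obtain ⟨w', hw', hw⟩ := hw
    exact stf_big hu.head (ih hu.tail w' hw') w hw

theorem V_eval : ∀ {u : List ℕ}, Big u → ∀ A : Set ℕ,
    (u.map fun k => P k A).prod = ((V u).map fun w => Z w A).sum := by
  intro u
  induction u with
  | nil => intro _ A; simp [V, Z]
  | cons k u ih =>
    intro hu A
    rw [List.map_cons, List.prod_cons, ih hu.tail A, ← List.sum_map_mul_left, V]
    have hbig := V_big hu.tail
    generalize V u = L at hbig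
    induction L with
    | nil => simp
    | cons w L ih' =>
      rw [List.map_cons, List.sum_cons, List.flatMap_cons, List.map_append, List.sum_append,
        stuffle hu.head w (hbig w (by simp)) A, ih' fun w hw => hbig w (List.mem_cons_of_mem _ hw)]

theorem stf_len (k : ℕ) : ∀ {l w : List ℕ}, w ∈ stf k l →
    w.length ≤ l.length + 1 ∧ (w.length = l.length + 1 → w.Perm (k :: l)) := by
  intro l
  induction l with
  | nil =>
    intro w hw
    simp only [stf, List.mem_singleton] at hw
    subst hw
    exact ⟨le_rfl, fun _ => List.Perm.refl _⟩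
  | cons a l ih =>
    intro w hw
    simp only [stf, List.mem_cons, List.mem_map] at hw
    rcases hw with rfl | rfl | ⟨w', hw', rfl⟩
    · exact ⟨le_rfl, fun _ => List.Perm.refl _⟩
    · refine ⟨by simp, fun h => ?_⟩
      simp at h
    · obtain ⟨h1, h2⟩ := ih hw'
      refine ⟨by simp only [List.length_cons]; omega, fun h => ?_⟩
      have h3 := h2 (by simp only [List.length_cons] at h; omega)
      exact (h3.cons a).trans (List.Perm.swap k a l)

theorem V_len : ∀ {u w : List ℕ}, w ∈ V u →
    w.length ≤ u.length ∧ (w.length = u.length → w.Perm u) := by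
  intro u
  induction u with
  | nil =>
    intro w hw
    simp only [V, List.mem_singleton] at hw
    subst hw
    exact ⟨le_rfl, fun _ => List.Perm.refl _⟩
  | cons k u ih =>
    intro w hw
    simp only [V, List.mem_flatMap] at hw
    obtain ⟨w', hw', hw⟩ := hw
    obtain ⟨h1, h2⟩ := ih hw'
    obtain ⟨h3, h4⟩ := stf_len k hw
    refine ⟨by simp only [List.length_cons]; omega, fun h => ?_⟩
    simp only [List.length_cons] at h
    exact (h4 (by omega)).trans ((h2 (by omega)).cons k)

theorem V_self : ∀ u : List ℕ, u ∈ V u := by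
  intro u
  induction u with
  | nil => simp [V]
  | cons k u ih =>
    simp only [V, List.mem_flatMap]
    refine ⟨u, ih, ?_⟩
    cases u with
    | nil => simp [stf]
    | cons a l => simp [stf]

section Comb

variable (K : Subfield ℂ)

open scoped Classical in
/-- The sum of the words of a list. -/
noncomputable def T (L : List (List ℕ)) : {w : List ℕ // Big w} →₀ K :=
  (L.map fun w => if h : Big w then Finsupp.single (⟨w, h⟩ : {w : List ℕ // Big w}) (1 : K) else 0).sum

theorem T_lin (A : Set ℕ) : ∀ {L : List (List ℕ)}, (∀ w ∈ L, Big w) →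
    Finsupp.linearCombination K (fun w : {w : List ℕ // Big w} => (Z w.1 A : ℂ)) (T K L) =
      (((L.map fun w => Z w A).sum : ℝ) : ℂ) := by
  intro L
  induction L with
  | nil => intro _; simp [T]
  | cons w L ih =>
    intro hL
    have hw : Big w := hL w (by simp)
    have h1 : T K (w :: L) = Finsupp.single (⟨w, hw⟩ : {w : List ℕ // Big w}) (1 : K) + T K L := by
      simp only [T, List.map_cons, List.sum_cons, hw, dif_pos]
    rw [h1, map_add, ih fun w hw => hL w (List.mem_cons_of_mem _ hw),
      Finsupp.linearCombination_single, one_smul]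
    simp

theorem T_apply {u : List ℕ} (hu : Big u) : ∀ {L : List (List ℕ)}, (∀ w ∈ L, Big w) →
    T K L ⟨u, hu⟩ = ((L.count u : ℕ) : K) := by
  intro L
  induction L with
  | nil => intro _; simp [T]
  | cons w L ih =>
    intro hL
    have hw : Big w := hL w (by simp)
    have h1 : T K (w :: L) = Finsupp.single (⟨w, hw⟩ : {w : List ℕ // Big w}) (1 : K) + T K L := by
      simp only [T, List.map_cons, List.sum_cons, hw, dif_pos]
    rw [h1, Finsupp.add_apply, ih fun w hw => hL w (List.mem_cons_of_mem _ hw), List.count_cons]
    by_cases hwu : w = u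
    · subst hwu
      rw [Finsupp.single_eq_same]
      simp only [beq_self_eq_true, if_true]
      push_cast
      ring
    · rw [Finsupp.single_apply, if_neg (fun h => hwu (congrArg Subtype.val h))]
      have : (w == u) = false := by simpa using hwu
      rw [this]
      simp

/-- The word of an exponent. -/
noncomputable def wd (s : ℕ →₀ ℕ) : List ℕ := (Finsupp.toMultiset s).toList.map (· + 2)

theorem wd_big (s : ℕ →₀ ℕ) : Big (wd s) := by
  intro a ha
  obtain ⟨b, _, rfl⟩ := List.mem_map.1 ha
  omega

theorem wd_len (s : ℕ →₀ ℕ) : (wd s).length = (Finsupp.toMultiset s).card := by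
  rw [wd, List.length_map, Multiset.length_toList]

theorem wd_inj {s s' : ℕ →₀ ℕ} (h : (wd s).Perm (wd s')) : s = s' := by
  have h1 : ((wd s : List ℕ) : Multiset ℕ) = (wd s' : List ℕ) := Multiset.coe_eq_coe.2 h
  unfold wd at h1
  rw [← Multiset.map_coe, ← Multiset.map_coe, Multiset.coe_toList, Multiset.coe_toList] at h1
  have h2 := Multiset.map_injective (fun a b (h : a + 2 = b + 2) => by omega) h1
  ext i
  rw [← Finsupp.count_toMultiset, ← Finsupp.count_toMultiset, h2]

theorem wd_prod (s : ℕ →₀ ℕ) (f : ℕ → ℝ) :
    ((wd s).map f).prod = ∏ i ∈ s.support, f (i + 2) ^ s i := by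
  unfold wd
  rw [List.map_map, ← Multiset.prod_coe, ← Multiset.map_coe, Multiset.coe_toList,
    Finset.prod_multiset_map_count, Finsupp.toFinset_toMultiset]
  refine Finset.prod_congr rfl fun i _ => ?_
  rw [Finsupp.count_toMultiset]
  rfl

/-- **Linear independence of all values over `A` implies algebraic independence of the power sums.** -/
theorem algInd {A : Set ℕ} (h : Ind K A) :
    AlgebraicIndependent K (fun k : ℕ => (P (k + 2) A : ℂ)) := by
  rw [algebraicIndependent_iff]
  intro p hp
  by_contra hp0
  have hne : p.support.Nonempty := by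
    rw [Finset.nonempty_iff_ne_empty, Ne, MvPolynomial.support_eq_empty]
    exact hp0
  obtain ⟨s₀, hs₀, hmax⟩ := Finset.exists_max_image p.support
    (fun s => (Finsupp.toMultiset s).card) hne
  set d : {w : List ℕ // Big w} →₀ K := ∑ s ∈ p.support, p.coeff s • T K (V (wd s)) with hd
  have h1 : Finsupp.linearCombination K (fun w : {w : List ℕ // Big w} => (Z w.1 A : ℂ)) d = 0 := by
    rw [← hp, hd, map_sum, MvPolynomial.aeval_def, MvPolynomial.eval₂_eq]
    refine Finset.sum_congr rfl fun s _ => ?_
    rw [map_smul, T_lin K A (V_big (wd_big s)), ← V_eval (wd_big s) A, wd_prod]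
    rw [Algebra.smul_def]
    push_cast
    rfl
  unfold Ind at h
  rw [linearIndependent_iff] at h
  have h2 := DFunLike.congr_fun (h d h1) ⟨wd s₀, wd_big s₀⟩
  rw [hd, Finsupp.finsetSum_apply, Finsupp.zero_apply, Finset.sum_eq_single_of_mem s₀ hs₀] at h2
  · rw [Finsupp.smul_apply, T_apply K (wd_big s₀) (V_big (wd_big s₀)), smul_eq_mul] at h2
    have h3 : 0 < (V (wd s₀)).count (wd s₀) := List.count_pos_iff.2 (V_self _)
    have h4 : ((((V (wd s₀)).count (wd s₀) : ℕ)) : K) ≠ 0 := by exact_mod_cast h3.ne'
    exact (MvPolynomial.mem_support_iff.1 hs₀) ((mul_eq_zero.1 h2).resolve_right h4)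
  · intro s hs hss
    rw [Finsupp.smul_apply, T_apply K (wd_big s₀) (V_big (wd_big s))]
    have h3 : (V (wd s)).count (wd s₀) = 0 := by
      rw [List.count_eq_zero]
      intro hmem
      obtain ⟨h4, h5⟩ := V_len hmem
      have h6 := hmax s hs
      rw [← wd_len, ← wd_len] at h6
      exact hss (wd_inj (h5 (le_antisymm h4 h6))).symm
    rw [h3]
    simp

end Comb

end Pool.Agent.H8.EF
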