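import Pool.Agent.H8.EF.Fam

/-!
# Integers which are divisible by no element of a set

`av B D`: the positive elements of `B` which are divisible by no element of `D`.
-/

set_option autoImplicit false

open Set

namespace Pool.Agent.H8.EF

open Pool.Agent.H8.TS

/-- The positive elements of `B` which are divisible by no element of `D`. -/
def av (B D : Set ℕ) : Set ℕ := {m | m ∈ B ∧ 0 < m ∧ ∀ d ∈ D, ¬ d ∣ m}

/-- `B` is invariant under multiplication and division by `d`. -/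
def Inv (B : Set ℕ) (d : ℕ) : Prop := ∀ m, 0 < m → (d * m ∈ B ↔ m ∈ B)

/-- The multiples of `d`. -/
def mul (d : ℕ) : Set ℕ := {m | d ∣ m}

theorem P_mult {k : ℕ} (_hk : 2 ≤ k) {A : Set ℕ} {d : ℕ} (hd : 0 < d)
    (hA : ∀ m, d * m ∈ A ↔ m ∈ A) :
    P k (A ∩ mul d) = ((d : ℝ) ^ k)⁻¹ * P k A := by
  have hinj : Function.Injective (fun m : ℕ => d * m) := fun a b hab => Nat.eq_of_mul_eq_mul_left hd hab
  have h1 : P k (A ∩ mul d) = ∑' m : ℕ, (A ∩ mul d).indicator (fun m => ((m : ℝ) ^ k)⁻¹) (d * m) := by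
    unfold P
    rw [← hinj.tsum_eq (f := (A ∩ mul d).indicator (fun m => ((m : ℝ) ^ k)⁻¹))]
    intro m hm
    have h2 : m ∈ A ∩ mul d := by
      by_contra hc
      exact hm (indicator_of_notMem hc _)
    obtain ⟨x, rfl⟩ := h2.2
    exact ⟨x, rfl⟩
  rw [h1]
  unfold P
  rw [← tsum_mul_left]
  refine tsum_congr fun m => ?_
  by_cases hm : m ∈ A
  · have h2 : d * m ∈ A ∩ mul d := ⟨(hA m).2 hm, dvd_mul_right d m⟩
    rw [indicator_of_mem h2, indicator_of_mem hm]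
    push_cast
    rw [mul_pow, mul_inv]
  · have h2 : d * m ∉ A ∩ mul d := fun h => hm ((hA m).1 h.1)
    rw [indicator_of_notMem h2, indicator_of_notMem hm, mul_zero]

theorem P_diff {k : ℕ} (hk : 2 ≤ k) {A S : Set ℕ} (hS : S ⊆ A) : P k (A \ S) = P k A - P k S := by
  unfold P
  rw [← (summable_ind hk A).tsum_sub (summable_ind hk S)]
  refine tsum_congr fun m => ?_
  by_cases hm : m ∈ A
  · by_cases hs : m ∈ S
    · rw [indicator_of_notMem (fun h => h.2 hs), indicator_of_mem hm, indicator_of_mem hs, sub_self]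
    · rw [indicator_of_mem (show m ∈ A \ S from ⟨hm, hs⟩), indicator_of_mem hm,
        indicator_of_notMem hs, sub_zero]
  · rw [indicator_of_notMem (fun h => hm h.1), indicator_of_notMem hm,
      indicator_of_notMem (fun h => hm (hS h)), sub_zero]

theorem indicator_le_sum {k : ℕ} {S : Set ℕ} {T : ℕ → Set ℕ} {n m : ℕ}
    (h : m ∈ S → ∃ i < n, m ∈ T i) :
    S.indicator (fun m => ((m : ℝ) ^ k)⁻¹) m ≤
      ∑ i ∈ Finset.range n, (T i).indicator (fun m => ((m : ℝ) ^ k)⁻¹) m := by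
  have hnn : ∀ i ∈ Finset.range n, 0 ≤ (T i).indicator (fun m => ((m : ℝ) ^ k)⁻¹) m :=
    fun i _ => indicator_nonneg (fun m _ => pow_nonneg' k m) m
  by_cases hm : m ∈ S
  · obtain ⟨i, hi, hT⟩ := h hm
    refine le_trans (le_of_eq ?_) (Finset.single_le_sum hnn (Finset.mem_range.2 hi))
    rw [indicator_of_mem hm, indicator_of_mem hT]
  · rw [indicator_of_notMem hm]
    exact Finset.sum_nonneg hnn

/-- Countable subadditivity. -/
theorem P_cover {k : ℕ} (hk : 2 ≤ k) {S : Set ℕ} {T : ℕ → Set ℕ}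
    (hcov : ∀ m ∈ S, ∃ i ≤ m, m ∈ T i) {b : ℕ → ℝ} (hb0 : ∀ i, 0 ≤ b i)
    (hb : ∀ i, P k (T i) ≤ b i) (hbs : Summable b) : P k S ≤ ∑' i, b i := by
  unfold P
  refine Real.tsum_le_of_sum_range_le (fun m => indicator_nonneg (fun m _ => pow_nonneg' k m) m)
    fun n => ?_
  calc ∑ m ∈ Finset.range n, S.indicator (fun m => ((m : ℝ) ^ k)⁻¹) m
      ≤ ∑ m ∈ Finset.range n, ∑ i ∈ Finset.range n,
          (T i).indicator (fun m => ((m : ℝ) ^ k)⁻¹) m := by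
        refine Finset.sum_le_sum fun m hm => indicator_le_sum fun hS => ?_
        obtain ⟨i, hi, hT⟩ := hcov m hS
        exact ⟨i, lt_of_le_of_lt hi (Finset.mem_range.1 hm), hT⟩
    _ = ∑ i ∈ Finset.range n, ∑ m ∈ Finset.range n,
          (T i).indicator (fun m => ((m : ℝ) ^ k)⁻¹) m := Finset.sum_comm
    _ ≤ ∑ i ∈ Finset.range n, b i := by
        refine Finset.sum_le_sum fun i _ => le_trans ?_ (hb i)
        exact (summable_ind hk (T i)).sum_le_tsum _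
          (fun m _ => indicator_nonneg (fun m _ => pow_nonneg' k m) m)
    _ ≤ ∑' i, b i := hbs.sum_le_tsum _ fun i _ => hb0 i

theorem av_mul {B D : Set ℕ} {d : ℕ} (hd : 0 < d) (hB : Inv B d) (hcop : ∀ d' ∈ D, Nat.Coprime d' d)
    (m : ℕ) : d * m ∈ av B D ↔ m ∈ av B D := by
  rcases Nat.eq_zero_or_pos m with rfl | hm
  · simp [av]
  · have h1 := hB m hm
    have h2 : ∀ d' ∈ D, (d' ∣ d * m ↔ d' ∣ m) := fun d' hd' => (hcop d' hd').dvd_mul_left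
    constructor
    · rintro ⟨h3, _, h5⟩
      exact ⟨h1.1 h3, hm, fun d' hd' h => h5 d' hd' ((h2 d' hd').2 h)⟩
    · rintro ⟨h3, _, h5⟩
      exact ⟨h1.2 h3, Nat.mul_pos hd hm, fun d' hd' h => h5 d' hd' ((h2 d' hd').1 h)⟩

/-- A positive element of `av B D` for all `D` in `E`. -/
theorem exists_mem {B E : Set ℕ} (hB : ∃ m ∈ B, 0 < m) (hE : ∀ d ∈ E, 2 ≤ d ∧ Inv B d) :
    ∃ m₀, 0 < m₀ ∧ ∀ D ⊆ E, m₀ ∈ av B D := by
  classical
  have h1 : ∃ m, m ∈ B ∧ 0 < m := hB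
  obtain ⟨h2, h3⟩ := Nat.find_spec h1
  refine ⟨Nat.find h1, h3, fun D hD => ⟨h2, h3, fun d hd hdvd => ?_⟩⟩
  obtain ⟨x, hx⟩ := hdvd
  obtain ⟨hd2, hinv⟩ := hE d (hD hd)
  have hx0 : 0 < x := by
    rcases Nat.eq_zero_or_pos x with rfl | h
    · rw [hx] at h3; simp at h3
    · exact h
  have h4 : x ∈ B := (hinv x hx0).1 (by rw [← hx]; exact h2)
  have h5 : Nat.find h1 ≤ x := Nat.find_min' h1 ⟨h4, hx0⟩
  have h6 : Nat.find h1 = d * x := hx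
  nlinarith

theorem P_ge_of_mem {k : ℕ} (hk : 2 ≤ k) {A : Set ℕ} {m : ℕ} (hm : m ∈ A) :
    ((m : ℝ) ^ k)⁻¹ ≤ P k A := by
  have h1 := (summable_ind hk A).le_tsum m
    (fun j _ => indicator_nonneg (fun m _ => pow_nonneg' k m) j)
  rw [indicator_of_mem hm] at h1
  exact h1

/-- The hypotheses on the sequence: sparse, pairwise coprime, at least two, and `B` invariant. -/
structure Seq (B : Set ℕ) (e : ℕ → ℕ) (ρ : ℝ) (J₀ : ℕ) : Prop where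
  sp : Sparse e ρ J₀
  two : ∀ j, 2 ≤ e j
  cop : ∀ i j, i ≠ j → Nat.Coprime (e i) (e j)
  inv : ∀ j, Inv B (e j)
  ne : ∃ m ∈ B, 0 < m

theorem Sparse_tail {e : ℕ → ℕ} {ρ : ℝ} {J₀ : ℕ} (h : Sparse e ρ J₀) {j : ℕ} (hj : J₀ ≤ j) {k : ℕ}
    (hk : 2 ≤ k) : Summable (fun i : ℕ => ((e (j + (i + 1)) : ℝ) ^ k)⁻¹) ∧
      ∑' i : ℕ, ((e (j + (i + 1)) : ℝ) ^ k)⁻¹ ≤
        ((ρ ^ 2)⁻¹ * (1 - (ρ ^ 2)⁻¹)⁻¹) * ((e j : ℝ) ^ k)⁻¹ := by
  set r := (ρ ^ 2)⁻¹ with hr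
  have hr1 : r < 1 / 2 := h.r_lt
  have hr0 : 0 < r := h.r_pos
  have h2 : ∀ i : ℕ, ((e (j + (i + 1)) : ℝ) ^ k)⁻¹ ≤ ((e j : ℝ) ^ k)⁻¹ * r * r ^ i := by
    intro i
    have := h.term hj hk (i + 1)
    rw [pow_succ] at this
    calc ((e (j + (i + 1)) : ℝ) ^ k)⁻¹ ≤ ((e j : ℝ) ^ k)⁻¹ * (r ^ i * r) := this
      _ = _ := by ring
  have h3 : Summable fun i : ℕ => ((e j : ℝ) ^ k)⁻¹ * r * r ^ i :=
    (summable_geometric_of_lt_one hr0.le (by linarith)).mul_left _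
  have h4 : Summable fun i : ℕ => ((e (j + (i + 1)) : ℝ) ^ k)⁻¹ :=
    Summable.of_nonneg_of_le (fun i => by positivity) h2 h3
  refine ⟨h4, ?_⟩
  calc ∑' i : ℕ, ((e (j + (i + 1)) : ℝ) ^ k)⁻¹ ≤ ∑' i : ℕ, ((e j : ℝ) ^ k)⁻¹ * r * r ^ i :=
        h4.tsum_le_tsum h2 h3
    _ = ((e j : ℝ) ^ k)⁻¹ * r * (1 - r)⁻¹ := by
        rw [tsum_mul_left, tsum_geometric_of_lt_one hr0.le (by linarith)]
    _ = _ := by ring

section Main

variable {B : Set ℕ} {e : ℕ → ℕ} {ρ : ℝ} {J₀ : ℕ}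

/-- The part of the multiples of `e i`, `i > j`. -/
theorem P_rest (h : Seq B e ρ J₀) {j : ℕ} (hj : J₀ ≤ j) {k : ℕ} (hk : 2 ≤ k) {D S : Set ℕ}
    (hD : D ⊆ e '' Iio (j + 1)) (hSA : S ⊆ av B D) (hS : ∀ m ∈ S, ∃ i, j < i ∧ e i ∣ m) :
    P k S ≤ ((ρ ^ 2)⁻¹ * (1 - (ρ ^ 2)⁻¹)⁻¹) * ((e j : ℝ) ^ k)⁻¹ * P k (av B D) := by
  obtain ⟨h1, h2⟩ := Sparse_tail h.sp hj hk
  have hPA := P_nonneg k (av B D)
  have hT : ∀ i, P k (av B D ∩ mul (e (j + (i + 1)))) =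
      ((e (j + (i + 1)) : ℝ) ^ k)⁻¹ * P k (av B D) := fun i =>
    P_mult hk (h.sp.pos _) (av_mul (h.sp.pos _) (h.inv _) fun d' hd' => by
      obtain ⟨i', hi', rfl⟩ := hD hd'
      exact h.cop _ _ (by simp only [mem_Iio] at hi'; omega))
  have h3 : P k S ≤ ∑' i : ℕ, ((e (j + (i + 1)) : ℝ) ^ k)⁻¹ * P k (av B D) := by
    refine P_cover hk (T := fun i => av B D ∩ mul (e (j + (i + 1)))) (fun m hm => ?_)
      (fun i => by positivity) (fun i => (hT i).le) (h1.mul_right _)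
    obtain ⟨i, hi, hdvd⟩ := hS m hm
    have hm0 : 0 < m := (hSA hm).2.1
    have h4 : e i ≤ m := Nat.le_of_dvd hm0 hdvd
    have h5 : i ≤ e i := h.sp.mono.le_apply
    refine ⟨i - j - 1, by omega, hSA hm, ?_⟩
    have h6 : j + (i - j - 1 + 1) = i := by omega
    show e (j + (i - j - 1 + 1)) ∣ m
    rw [h6]
    exact hdvd
  refine h3.trans ?_
  rw [tsum_mul_right]
  exact mul_le_mul_of_nonneg_right h2 hPA

theorem theta_lt' (h : Seq B e ρ J₀) : (ρ ^ 2)⁻¹ * (1 - (ρ ^ 2)⁻¹)⁻¹ < 1 := theta_lt h.sp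

/-- The lower bound, one direction. -/
theorem lower_aux (h : Seq B e ρ J₀) {j : ℕ} (hj : J₀ ≤ j) {k : ℕ} (hk : 2 ≤ k) {J J' : Set ℕ}
    (hd : First J J' j) (hjJ : j ∉ J) (hjJ' : j ∈ J') :
    (1 - (ρ ^ 2)⁻¹ * (1 - (ρ ^ 2)⁻¹)⁻¹) * P k (av B (e '' (J ∩ Iio j))) * ((e j : ℝ) ^ k)⁻¹ ≤
      P k (av B (e '' J)) - P k (av B (e '' J')) := by
  set A₀ := av B (e '' (J ∩ Iio j)) with hA₀
  have hsub : e '' (J ∩ Iio j) ⊆ e '' Iio (j + 1) := by
    rintro _ ⟨i, ⟨_, hi⟩, rfl⟩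
    exact ⟨i, by simp only [mem_Iio] at hi ⊢; omega, rfl⟩
  have h1 : av B (e '' J) ⊆ A₀ := fun m hm =>
    ⟨hm.1, hm.2.1, fun d hd => hm.2.2 d (image_mono inter_subset_left hd)⟩
  have h2 : P k (av B (e '' J)) =
      P k A₀ - P k (A₀ \ av B (e '' J)) := by
    rw [P_diff hk h1]; ring
  have h3 : P k (A₀ \ av B (e '' J)) ≤
      ((ρ ^ 2)⁻¹ * (1 - (ρ ^ 2)⁻¹)⁻¹) * ((e j : ℝ) ^ k)⁻¹ * P k A₀ := by
    refine P_rest h hj hk hsub sdiff_subset fun m hm => ?_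
    have h4 : ∃ i ∈ J, e i ∣ m := by
      by_contra hc
      push Not at hc
      refine hm.2 ⟨hm.1.1, hm.1.2.1, ?_⟩
      rintro _ ⟨i, hi, rfl⟩
      exact hc i hi
    obtain ⟨i, hi, hdvd⟩ := h4
    refine ⟨i, ?_, hdvd⟩
    rcases lt_trichotomy i j with h5 | h5 | h5
    · exact absurd hdvd (hm.1.2.2 (e i) ⟨i, ⟨hi, h5⟩, rfl⟩)
    · subst h5; exact absurd hi hjJ
    · exact h5
  have h4 : av B (e '' J') ⊆ A₀ \ (A₀ ∩ mul (e j)) := by
    intro m hm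
    refine ⟨⟨hm.1, hm.2.1, ?_⟩, fun h5 => hm.2.2 (e j) ⟨j, hjJ', rfl⟩ h5.2⟩
    rintro _ ⟨i, ⟨hi, hij⟩, rfl⟩
    exact hm.2.2 _ ⟨i, (hd.below i hij).1 hi, rfl⟩
  have h5 : P k (A₀ ∩ mul (e j)) = ((e j : ℝ) ^ k)⁻¹ * P k A₀ :=
    P_mult hk (h.sp.pos _) (av_mul (h.sp.pos _) (h.inv _) fun d' hd' => by
      obtain ⟨i', ⟨_, hi'⟩, rfl⟩ := hd'
      exact h.cop _ _ (by simp only [mem_Iio] at hi'; omega))
  have h6 : P k (av B (e '' J')) ≤ P k A₀ - ((e j : ℝ) ^ k)⁻¹ * P k A₀ := by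
    refine (P_mono hk h4).trans (le_of_eq ?_)
    rw [P_diff hk inter_subset_left, h5]
  rw [h2]
  nlinarith

/-- The family of the sets `av B (e '' J)`. -/
theorem fam (h : Seq B e ρ J₀) : ∃ κ : ℕ → ℝ, Fam (fun J => av B (e '' J)) e J₀ κ 4 := by
  obtain ⟨m₀, hm₀, hmem⟩ := exists_mem (B := B) (E := range e) h.ne (by
    rintro _ ⟨j, rfl⟩
    exact ⟨h.two j, h.inv j⟩)
  have hθ := theta_lt h.sp
  have hθ0 := theta_nonneg h.sp
  set θ := (ρ ^ 2)⁻¹ * (1 - (ρ ^ 2)⁻¹)⁻¹ with hθdef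
  have hm₀' : (0 : ℝ) < m₀ := by exact_mod_cast hm₀
  refine ⟨fun k => (1 - θ) * ((m₀ : ℝ) ^ k)⁻¹, ?_⟩
  constructor
  · exact fun j => h.sp.pos j
  · exact fun j => h.sp.mono.le_apply
  · intro k
    have : 0 < 1 - θ := by linarith
    positivity
  · norm_num
  · intro J J' j hd m hm
    have key : ∀ J J' : Set ℕ, (∀ i < j, i ∈ J ↔ i ∈ J') → m ∈ av B (e '' J) → m ∈ av B (e '' J') := by
      intro J J' hJ hmJ
      refine ⟨hmJ.1, hmJ.2.1, ?_⟩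
      rintro _ ⟨i, hi, rfl⟩ hdvd
      have h1 : e i ≤ m := Nat.le_of_dvd hmJ.2.1 hdvd
      have h2 : i < j := by
        by_contra hc
        have := h.sp.mono.monotone (not_lt.1 hc)
        omega
      exact hmJ.2.2 (e i) ⟨i, (hJ i h2).2 hi, rfl⟩ hdvd
    exact ⟨key J J' hd.below, key J' J fun i hi => (hd.below i hi).symm⟩
  · intro J J' j hj hd k hk
    have key : ∀ J J' : Set ℕ, First J J' j → j ∉ J → j ∈ J' →
        (1 - θ) * ((m₀ : ℝ) ^ k)⁻¹ * ((e j : ℝ) ^ k)⁻¹ ≤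
          P k (av B (e '' J)) - P k (av B (e '' J')) := by
      intro J J' hd h1 h2
      refine le_trans ?_ (lower_aux h hj hk hd h1 h2)
      have h3 : ((m₀ : ℝ) ^ k)⁻¹ ≤ P k (av B (e '' (J ∩ Iio j))) :=
        P_ge_of_mem hk (hmem _ (image_subset_range _ _))
      have h4 : 0 ≤ 1 - θ := by linarith
      gcongr
    have hmem' := hd.mem
    rw [mem_symmDiff] at hmem'
    rcases hmem' with ⟨h1, h2⟩ | ⟨h1, h2⟩
    · have hd' : First J' J j := ⟨by rw [symmDiff_comm]; exact hd.mem, fun i hi => (hd.below i hi).symm⟩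
      rw [abs_sub_comm]
      exact (key J' J hd' h2 h1).trans (le_abs_self _)
    · exact (key J J' hd h2 h1).trans (le_abs_self _)
  · intro J J' j hj hd
    set D := e '' (J ∩ Iio j) with hD
    set A₀ := av B D with hA₀
    have hsub : D ⊆ e '' Iio (j + 1) := by
      rintro _ ⟨i, ⟨_, hi⟩, rfl⟩
      exact ⟨i, by simp only [mem_Iio] at hi ⊢; omega, rfl⟩
    set S := symmDiff (av B (e '' J)) (av B (e '' J')) with hS
    have hSA : S ⊆ A₀ := by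
      intro m hm
      rw [hS, mem_symmDiff] at hm
      rcases hm with ⟨hm, _⟩ | ⟨hm, _⟩
      · exact ⟨hm.1, hm.2.1, fun d hd => hm.2.2 d (image_mono inter_subset_left hd)⟩
      · refine ⟨hm.1, hm.2.1, ?_⟩
        rintro _ ⟨i, ⟨hi, hij⟩, rfl⟩
        exact hm.2.2 _ ⟨i, (hd.below i hij).1 hi, rfl⟩
    have hSd : ∀ m ∈ S, ∃ i, j ≤ i ∧ e i ∣ m := by
      intro m hm
      have key : ∀ J J' : Set ℕ, (∀ i < j, i ∈ J ↔ i ∈ J') → m ∈ av B (e '' J) →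
          m ∉ av B (e '' J') → ∃ i, j ≤ i ∧ e i ∣ m := by
        intro J J' hJ h1 h2
        by_contra hc
        push Not at hc
        refine h2 ⟨h1.1, h1.2.1, ?_⟩
        rintro _ ⟨i, hi, rfl⟩ hdvd
        rcases lt_or_ge i j with h3 | h3
        · exact h1.2.2 (e i) ⟨i, (hJ i h3).2 hi, rfl⟩ hdvd
        · exact hc i h3 hdvd
      rw [hS, mem_symmDiff] at hm
      rcases hm with ⟨h1, h2⟩ | ⟨h1, h2⟩
      · exact key J J' hd.below h1 h2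
      · exact key J' J (fun i hi => (hd.below i hi).symm) h1 h2
    have h1 : P 2 S ≤ P 2 (S ∩ mul (e j)) + P 2 (S \ mul (e j)) := by
      have h2 : S \ mul (e j) = S \ (S ∩ mul (e j)) := by
        ext x
        simp only [mem_sdiff, mem_inter_iff]
        tauto
      rw [h2, P_diff le_rfl inter_subset_left]
      linarith
    have h2 : P 2 (S ∩ mul (e j)) ≤ ((e j : ℝ) ^ 2)⁻¹ * P 2 A₀ := by
      refine (P_mono le_rfl (inter_subset_inter_left _ hSA)).trans (le_of_eq ?_)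
      exact P_mult le_rfl (h.sp.pos _) (av_mul (h.sp.pos _) (h.inv _) fun d' hd' => by
        obtain ⟨i', ⟨_, hi'⟩, rfl⟩ := hd'
        exact h.cop _ _ (by simp only [mem_Iio] at hi'; omega))
    have h3 : P 2 (S \ mul (e j)) ≤ θ * ((e j : ℝ) ^ 2)⁻¹ * P 2 A₀ := by
      refine P_rest h hj le_rfl hsub (sdiff_subset.trans hSA) fun m hm => ?_
      obtain ⟨i, hi, hdvd⟩ := hSd m hm.1
      refine ⟨i, lt_of_le_of_ne hi ?_, hdvd⟩
      rintro rfl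
      exact hm.2 hdvd
    have h4 := P_two_le A₀
    have h5 : (0 : ℝ) ≤ ((e j : ℝ) ^ 2)⁻¹ := by positivity
    have h6 := P_nonneg 2 A₀
    have h7 : θ * ((e j : ℝ) ^ 2)⁻¹ * P 2 A₀ ≤ 1 * ((e j : ℝ) ^ 2)⁻¹ * 2 := by gcongr
    have h8 : ((e j : ℝ) ^ 2)⁻¹ * P 2 A₀ ≤ ((e j : ℝ) ^ 2)⁻¹ * 2 := by gcongr
    linarith

/-- The exceptional sets of indices are countable. -/
theorem countable_av (h : Seq B e ρ J₀) (K : Subfield ℂ) [Countable K] :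
    {J : Set ℕ | ¬ Ind K (av B (e '' J))}.Countable := by
  obtain ⟨κ, hκ⟩ := fam h
  exact countable_dep K hκ

end Main

end Pool.Agent.H8.EF
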