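import Pool.Agent.H8.EF.Av
import Pool.Agent.H8.TS.Sharp

/-!
# Finitely many Euler factors: the values are dependent
-/

set_option autoImplicit false

open Set Filter Topology

namespace Pool.Agent.H8.EF

open Pool.Agent.H8.TS (Z P Big P_mono summable_ind sq_sum Z_summable)

/-- Pairwise coprime integers at least two. -/
structure PC (D : Set ℕ) : Prop where
  two : ∀ d ∈ D, 2 ≤ d
  cop : ∀ d ∈ D, ∀ d' ∈ D, d ≠ d' → Nat.Coprime d d'

theorem P_finite {D : Set ℕ} (hD : D.Finite) : PC D → ∀ k, 2 ≤ k → ∃ q : ℚ, 0 < q ∧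
    P k (av univ D) = q * P k univ := by
  induction D, hD using Set.Finite.induction_on with
  | empty =>
    intro _ k hk
    refine ⟨1, one_pos, ?_⟩
    have h1 : P k (av univ ∅) = P k univ := by
      unfold P
      refine tsum_congr fun m => ?_
      rcases Nat.eq_zero_or_pos m with rfl | hm
      · rw [indicator_of_notMem (fun h => absurd h.2.1 (lt_irrefl 0)), indicator_of_mem (mem_univ 0)]
        have : k ≠ 0 := by omega
        simp [this]
      · rw [indicator_of_mem (show m ∈ av univ ∅ from ⟨mem_univ _, hm, fun d hd => absurd hd (by simp)⟩),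
          indicator_of_mem (mem_univ m)]
    rw [h1]
    simp
  | @insert d D hd hfin ih =>
    intro hPC k hk
    have hPC' : PC D := ⟨fun x hx => hPC.two x (Or.inr hx),
      fun x hx y hy => hPC.cop x (Or.inr hx) y (Or.inr hy)⟩
    obtain ⟨q, hq, h⟩ := ih hPC' k hk
    have hd2 : 2 ≤ d := hPC.two d (Or.inl rfl)
    have h1 : P k (av univ D ∩ mul d) = ((d : ℝ) ^ k)⁻¹ * P k (av univ D) :=
      P_mult hk (by omega) (av_mul (by omega) (fun _ _ => ⟨fun _ => mem_univ _, fun _ => mem_univ _⟩)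
        fun d' hd' => hPC.cop d' (Or.inr hd') d (Or.inl rfl) fun h => hd (h ▸ hd'))
    have h2 : av univ (insert d D) = av univ D \ (av univ D ∩ mul d) := by
      ext m
      constructor
      · intro hm
        exact ⟨⟨hm.1, hm.2.1, fun x hx => hm.2.2 x (Or.inr hx)⟩, fun h' => hm.2.2 d (Or.inl rfl) h'.2⟩
      · rintro ⟨hm, hmd⟩
        refine ⟨hm.1, hm.2.1, fun x hx hdvd => ?_⟩
        rcases hx with rfl | hx
        · exact hmd ⟨hm, hdvd⟩
        · exact hm.2.2 x hx hdvd
    have hlt : ((d : ℚ) ^ k)⁻¹ < 1 := by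
      have h3 : (1 : ℚ) < (d : ℚ) ^ k := one_lt_pow₀ (by exact_mod_cast (by omega)) (by omega)
      exact inv_lt_one_of_one_lt₀ h3
    refine ⟨(1 - ((d : ℚ) ^ k)⁻¹) * q, mul_pos (by linarith) hq, ?_⟩
    rw [h2, P_diff hk inter_subset_left, h1, h]
    push_cast
    ring

theorem Z_single (k : ℕ) (A : Set ℕ) : Z [k] A = P k A := by
  rw [Z]
  unfold P
  refine tsum_congr fun m => ?_
  by_cases hm : m ∈ A
  · rw [indicator_of_mem hm, indicator_of_mem hm]; simp [Z]
  · rw [indicator_of_notMem hm, indicator_of_notMem hm]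

theorem Z_single_trunc (k : ℕ) (A : Set ℕ) (m : ℕ) :
    Z [k] (A ∩ Iio m) = ∑ n ∈ Finset.range m, A.indicator (fun m => ((m : ℝ) ^ k)⁻¹) n := by
  rw [Z_single]
  unfold P
  rw [tsum_eq_sum (s := Finset.range m)]
  · refine Finset.sum_congr rfl fun n hn => ?_
    rw [Finset.mem_range] at hn
    by_cases hnA : n ∈ A
    · rw [indicator_of_mem hnA, indicator_of_mem (show n ∈ A ∩ Iio m from ⟨hnA, hn⟩)]
    · rw [indicator_of_notMem hnA, indicator_of_notMem (fun h => hnA h.1)]
  · intro n hn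
    rw [Finset.mem_range] at hn
    exact indicator_of_notMem (fun h => hn h.2) _

/-- The first stuffle relation over a set. -/
theorem stuffle_two (A : Set ℕ) : P 2 A ^ 2 = P 4 A + 2 * Z [2, 2] A := by
  have hbig : Big [2, 2] := by
    intro a ha
    simp at ha
    omega
  set a : ℕ → ℝ := fun m => A.indicator (fun m => ((m : ℝ) ^ 2)⁻¹) m with ha
  have h2 : Tendsto (fun N : ℕ => ∑ m ∈ Finset.range N, a m) atTop (𝓝 (P 2 A)) :=
    (summable_ind le_rfl A).hasSum.tendsto_sum_nat
  have h4 : Tendsto (fun N : ℕ => ∑ m ∈ Finset.range N, a m ^ 2) atTop (𝓝 (P 4 A)) := by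
    have h5 : Tendsto (fun N : ℕ => ∑ m ∈ Finset.range N, A.indicator (fun m => ((m : ℝ) ^ 4)⁻¹) m)
        atTop (𝓝 (P 4 A)) := (summable_ind (by norm_num) A).hasSum.tendsto_sum_nat
    refine h5.congr fun N => Finset.sum_congr rfl fun m _ => ?_
    by_cases hm : m ∈ A
    · simp only [ha, indicator_of_mem hm]
      rw [← inv_pow, ← inv_pow]
      ring
    · simp only [ha, indicator_of_notMem hm]
      ring
  have hs := Z_summable hbig A
  have hZ22 : Tendsto (fun N : ℕ => ∑ m ∈ Finset.range N, a m * ∑ n ∈ Finset.range m, a n) atTop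
      (𝓝 (Z [2, 2] A)) := by
    have h1 := hs.hasSum.tendsto_sum_nat
    have h3 : ∀ m : ℕ, A.indicator (fun m => ((m : ℝ) ^ 2)⁻¹ * Z [2] (A ∩ Iio m)) m =
        a m * ∑ n ∈ Finset.range m, a n := fun m => by
      by_cases hm : m ∈ A
      · simp only [ha, indicator_of_mem hm]
        rw [Z_single_trunc]
      · simp only [ha, indicator_of_notMem hm, zero_mul]
    simp only [h3] at h1
    have h5 : Z [2, 2] A = ∑' m : ℕ, a m * ∑ n ∈ Finset.range m, a n := by
      rw [Z]
      exact tsum_congr h3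
    rw [h5]
    exact h1
  have h9 := h4.add (hZ22.const_mul 2)
  have h10 : ∀ N : ℕ, (∑ m ∈ Finset.range N, a m ^ 2) +
      2 * (∑ m ∈ Finset.range N, a m * ∑ n ∈ Finset.range m, a n) =
      (∑ m ∈ Finset.range N, a m) ^ 2 := fun N => (sq_sum _ N).symm
  exact (tendsto_nhds_unique (h9.congr h10) (h2.pow 2)).symm

theorem P_univ_two : P 2 univ = Real.pi ^ 2 / 6 := by
  have h2 : HasSum (fun n : ℕ => ((n : ℝ) ^ 2)⁻¹) (Real.pi ^ 2 / 6) := by
    simpa [one_div] using hasSum_zeta_two
  unfold P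
  rw [← h2.tsum_eq]
  exact tsum_congr fun m => indicator_of_mem (mem_univ m) _

theorem P_univ_four : P 4 univ = Real.pi ^ 4 / 90 := by
  have h2 : HasSum (fun n : ℕ => ((n : ℝ) ^ 4)⁻¹) (Real.pi ^ 4 / 90) := by
    simpa [one_div] using hasSum_zeta_four
  unfold P
  rw [← h2.tsum_eq]
  exact tsum_congr fun m => indicator_of_mem (mem_univ m) _

/-- The relation over a finite set of Euler factors. -/
theorem relation {D : Set ℕ} (hD : D.Finite) (h : PC D) :
    ∃ q : ℚ, Z [2, 2] (av univ D) = q * Z [4] (av univ D) := by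
  obtain ⟨q₂, hq₂, h2⟩ := P_finite hD h 2 le_rfl
  obtain ⟨q₄, hq₄, h4⟩ := P_finite hD h 4 (by norm_num)
  have h5 := stuffle_two (av univ D)
  refine ⟨(q₂ ^ 2 * (5 / 2) / q₄ - 1) / 2, ?_⟩
  have hq₄' : (q₄ : ℝ) ≠ 0 := by exact_mod_cast hq₄.ne'
  rw [Z_single, h4, P_univ_four]
  rw [h2, h4, P_univ_two, P_univ_four] at h5
  push_cast
  field_simp
  field_simp at h5
  linarith

/-- With finitely many Euler factors removed, the values of all words are dependent. -/
theorem dependent (K : Subfield ℂ) {D : Set ℕ} (hD : D.Finite) (h : PC D) :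
    ¬ Ind K (av univ D) := by
  obtain ⟨q, hq⟩ := relation hD h
  intro hI
  unfold Ind at hI
  have h4 : Big [4] := by intro a ha; simp at ha; omega
  have h22 : Big [2, 2] := by intro a ha; simp at ha; omega
  set x : {w : List ℕ // Big w} := ⟨[4], h4⟩
  set y : {w : List ℕ // Big w} := ⟨[2, 2], h22⟩
  have hxy : x ≠ y := fun h => by
    have := congrArg Subtype.val h
    simp [x, y] at this
  rw [linearIndependent_iff] at hI
  have h1 := hI (Finsupp.single y 1 - Finsupp.single x (q : K)) (by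
    rw [map_sub, Finsupp.linearCombination_single, Finsupp.linearCombination_single]
    have h2 : ((q : K)) • (Z x.1 (av univ D) : ℂ) = ((q * Z [4] (av univ D) : ℝ) : ℂ) := by
      push_cast
      rfl
    rw [h2, one_smul, ← hq, sub_self])
  have h5 := DFunLike.congr_fun h1 y
  rw [Finsupp.sub_apply, Finsupp.single_eq_same, Finsupp.single_apply, if_neg hxy,
    Finsupp.zero_apply, sub_zero] at h5
  exact one_ne_zero h5

end Pool.Agent.H8.EF
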