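import Pool.Agent.H8.TS.Seq

/-!
# Families of sets indexed by sets of places

`Fam A e J₀ κ M`: the sets `A J` and `A J'` agree below `e j` if `J` and `J'` agree below `j`; and if
moreover `J`, `J'` differ at `j ≥ J₀`, the power sums differ by at least `κ k / (e j) ^ k`, and the
symmetric difference has second power sum at most `M / (e j) ^ 2`.
-/

set_option autoImplicit false

open Set

namespace Pool.Agent.H8.EF

open Pool.Agent.H8.TS

/-- `J` and `J'` differ at `j` and agree below `j`. -/
structure First (J J' : Set ℕ) (j : ℕ) : Prop where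
  mem : j ∈ symmDiff J J'
  below : ∀ i < j, i ∈ J ↔ i ∈ J'

theorem exists_first {J J' : Set ℕ} (hne : J ≠ J') : ∃ j, First J J' j := by
  classical
  have h1 : ∃ j, j ∈ symmDiff J J' := by
    by_contra hc
    push Not at hc
    apply hne
    ext i
    have := hc i
    rw [mem_symmDiff] at this
    tauto
  refine ⟨Nat.find h1, Nat.find_spec h1, fun i hi => ?_⟩
  have := Nat.find_min h1 hi
  rw [mem_symmDiff] at this
  tauto

structure Fam (A : Set ℕ → Set ℕ) (e : ℕ → ℕ) (J₀ : ℕ) (κ : ℕ → ℝ) (M : ℝ) : Prop where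
  pos : ∀ j, 1 ≤ e j
  le : ∀ j, j ≤ e j
  κpos : ∀ k, 0 < κ k
  Mnn : 0 ≤ M
  agree : ∀ J J' j, First J J' j → ∀ m < e j, m ∈ A J ↔ m ∈ A J'
  lower : ∀ J J' j, J₀ ≤ j → First J J' j → ∀ k, 2 ≤ k →
    κ k * ((e j : ℝ) ^ k)⁻¹ ≤ |P k (A J) - P k (A J')|
  upper : ∀ J J' j, J₀ ≤ j → First J J' j →
    P 2 (symmDiff (A J) (A J')) ≤ M * ((e j : ℝ) ^ 2)⁻¹

variable {A : Set ℕ → Set ℕ} {e : ℕ → ℕ} {J₀ : ℕ} {κ : ℕ → ℝ} {M : ℝ}

/-- If two combinations are equal, the sets differ early or the leading coefficient is small. -/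
theorem bound_of_eq (h : Fam A e J₀ κ M) {k : ℕ} (hk : 2 ≤ k) (s : Finset (List ℕ))
    (c : List ℕ → ℂ) (hs : ∀ w ∈ s, Big w)
    (hmin : ∀ k' l, k' :: l ∈ s → c (k' :: l) ≠ 0 → k ≤ k') : ∃ C : ℝ, 0 ≤ C ∧
    ∀ (J J' : Set ℕ) (j : ℕ), J₀ ≤ j → First J J' j → F s c (A J) = F s c (A J') →
      ‖F (drop k s) (fun l => c (k :: l)) (A J)‖ * e j ≤ C := by
  obtain ⟨C, hC, hF⟩ := F_main (k := k) s c hs hmin
  have hκ := h.κpos k
  have hM := h.Mnn
  refine ⟨C * M / κ k, by positivity, fun J J' j hj hd heq => ?_⟩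
  have h1 := hF (A J) (A J') (e j) (h.pos j) (h.agree J J' j hd)
  rw [heq, sub_self, zero_sub, norm_neg, norm_mul, Complex.norm_real, Real.norm_eq_abs] at h1
  have h2 := h.lower J J' j hj hd k hk
  have h3 := h.upper J J' j hj hd
  have he : (0 : ℝ) < e j := by exact_mod_cast (h.pos j)
  set G := ‖F (drop k s) (fun l => c (k :: l)) (A J)‖ with hG
  have hG0 : 0 ≤ G := norm_nonneg _
  have h4 : G * (κ k * ((e j : ℝ) ^ k)⁻¹) ≤
      C * ((e j : ℝ) * ((e j : ℝ) ^ k)⁻¹ * (M * ((e j : ℝ) ^ 2)⁻¹)) := by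
    calc G * (κ k * ((e j : ℝ) ^ k)⁻¹) ≤ G * |P k (A J) - P k (A J')| := by gcongr
      _ ≤ _ := h1
      _ ≤ _ := by gcongr
  have h5 : C * ((e j : ℝ) * ((e j : ℝ) ^ k)⁻¹ * (M * ((e j : ℝ) ^ 2)⁻¹)) =
      (C * M / e j) * ((e j : ℝ) ^ k)⁻¹ := by
    field_simp
  have h6 : G * κ k ≤ C * M / e j := by
    have h7 : (0 : ℝ) < ((e j : ℝ) ^ k)⁻¹ := by positivity
    rw [h5, ← mul_assoc] at h4
    exact le_of_mul_le_mul_right h4 h7
  rw [le_div_iff₀ hκ]
  rw [le_div_iff₀ he] at h6
  linarith

/-- The zeros of a nonzero combination. -/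
theorem countable_zeros (h : Fam A e J₀ κ M) : ∀ (n : ℕ) (s : Finset (List ℕ)) (c : List ℕ → ℂ),
    (∀ w ∈ s, Big w ∧ w.length < n) → (∃ w ∈ s, c w ≠ 0) →
    {J : Set ℕ | F s c (A J) = 0}.Countable := by
  classical
  intro n
  induction n with
  | zero =>
    rintro s c hs ⟨w, hw, -⟩
    exact absurd (hs w hw).2 (Nat.not_lt_zero _)
  | succ n ih =>
    rintro s c hs ⟨w₀, hw₀, hc₀⟩
    by_cases hne : ∃ k, ∃ l, k :: l ∈ s ∧ c (k :: l) ≠ 0
    · obtain ⟨l₀, hl₀, hcl₀⟩ := Nat.find_spec hne
      set k := Nat.find hne with hkdef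
      have hmin : ∀ k' l, k' :: l ∈ s → c (k' :: l) ≠ 0 → k ≤ k' := fun k' l h1 h2 =>
        Nat.find_min' hne ⟨l, h1, h2⟩
      have hk : 2 ≤ k := (hs _ hl₀).1.head
      obtain ⟨C, hC, hb⟩ := bound_of_eq h hk s c (fun w hw => (hs w hw).1) hmin
      have hG : {J : Set ℕ | F (drop k s) (fun l => c (k :: l)) (A J) = 0}.Countable := by
        refine ih (drop k s) _ (fun l hl => ?_) ⟨l₀, mem_drop.2 hl₀, hcl₀⟩
        have h1 := hs _ (mem_drop.1 hl)
        refine ⟨h1.1.tail, ?_⟩
        have h2 := h1.2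
        rw [List.length_cons] at h2
        omega
      have hfin : ∀ N : ℕ, {J : Set ℕ | F s c (A J) = 0 ∧
          1 / ((N : ℝ) + 1) ≤ ‖F (drop k s) (fun l => c (k :: l)) (A J)‖}.Finite := by
        intro N
        set T : ℕ := max J₀ (⌈C * (N + 1)⌉₊ + 1) with hT
        refine Set.Finite.of_finite_image (f := fun J => J ∩ Iio T)
          ((finite_Iio T).finite_subsets.subset ?_) ?_
        · rintro _ ⟨J, _, rfl⟩
          exact inter_subset_right
        · rintro J ⟨hJ, hJG⟩ J' ⟨hJ', -⟩ hJJ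
          by_contra hJne
          obtain ⟨j, hd⟩ := exists_first hJne
          have hj := hd.mem
          rcases lt_or_ge j T with hjM | hjM
          · have h1 : j ∈ J ∩ Iio T ↔ j ∈ J' ∩ Iio T := by
              have := hJJ
              simp only at this
              rw [this]
            simp only [mem_inter_iff, mem_Iio, hjM, and_true] at h1
            rw [mem_symmDiff] at hj
            tauto
          · have h1 := hb _ _ j ((le_max_left _ _).trans hjM) hd (hJ.trans hJ'.symm)
            have h2 : (j : ℝ) ≤ e j := by exact_mod_cast h.le j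
            have h3 : C * (N + 1) < j := by
              have h4 : C * (N + 1) ≤ ⌈C * (N + 1)⌉₊ := Nat.le_ceil _
              have h5 : ((⌈C * (N + 1)⌉₊ + 1 : ℕ) : ℝ) ≤ j := by
                exact_mod_cast (le_max_right _ _).trans hjM
              push_cast at h5
              linarith
            have h6 : (0 : ℝ) < N + 1 := by positivity
            have h7 : 1 / ((N : ℝ) + 1) * e j ≤ C := by
              have h8 : (0 : ℝ) ≤ e j := by positivity
              exact (mul_le_mul_of_nonneg_right hJG h8).trans h1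
            rw [one_div, inv_mul_le_iff₀ h6] at h7
            nlinarith
      refine (hG.union (countable_iUnion fun N => (hfin N).countable)).mono fun J hJ => ?_
      by_cases hz : F (drop k s) (fun l => c (k :: l)) (A J) = 0
      · exact Or.inl hz
      · right
        obtain ⟨N, hN⟩ := exists_nat_one_div_lt (norm_pos_iff.2 hz)
        exact mem_iUnion.2 ⟨N, hJ, hN.le⟩
    · push Not at hne
      have hw : w₀ = [] := by
        cases w₀ with
        | nil => rfl
        | cons k l => exact absurd (hne k l hw₀) hc₀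
      subst hw
      have h1 : {J : Set ℕ | F s c (A J) = 0} = ∅ := by
        rw [eq_empty_iff_forall_notMem]
        intro J hJ
        apply hc₀
        have h2 : F s c (A J) = c [] := by
          unfold F
          rw [Finset.sum_eq_single_of_mem [] hw₀]
          · simp [Z]
          · intro w hw hwn
            cases w with
            | nil => exact absurd rfl hwn
            | cons k l => rw [hne k l hw, zero_mul]
        rw [← h2]
        exact hJ
      rw [h1]
      exact countable_empty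

section LI

variable (K : Subfield ℂ)

/-- The combination given by a finitely supported function. -/
noncomputable def L (c : List ℕ →₀ K) (A : Set ℕ) : ℂ := F c.support (fun w => (c w : ℂ)) A

/-- Independence of the values over `A` of all words with letters at least two. -/
def Ind (A : Set ℕ) : Prop :=
  LinearIndependent K (fun w : {w : List ℕ // Big w} => (Z w.1 A : ℂ))

/-- The nonzero combinations of words with letters at least two. -/
def NZ (c : List ℕ →₀ K) : Prop := c ≠ 0 ∧ ∀ w ∈ c.support, Big w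

theorem not_ind {A : Set ℕ} (h : ¬ Ind K A) : ∃ c, NZ K c ∧ L K c A = 0 := by
  classical
  unfold Ind at h
  rw [linearIndependent_iff] at h
  push Not at h
  obtain ⟨c, hc, hc0⟩ := h
  refine ⟨c.embDomain (Function.Embedding.subtype _), ⟨?_, ?_⟩, ?_⟩
  · rw [Ne, Finsupp.embDomain_eq_zero]
    exact hc0
  · intro w hw
    rw [Finsupp.support_embDomain, Finset.mem_map] at hw
    obtain ⟨x, -, rfl⟩ := hw
    exact x.2
  · rw [← hc, Finsupp.linearCombination_apply, Finsupp.sum, L, F, Finsupp.support_embDomain,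
      Finset.sum_map]
    refine Finset.sum_congr rfl fun x _ => ?_
    rw [Finsupp.embDomain_apply_self]
    rfl

theorem countable_zeros_L (h : Fam A e J₀ κ M) (c : List ℕ →₀ K) (hc : NZ K c) :
    {J : Set ℕ | L K c (A J) = 0}.Countable := by
  obtain ⟨w, hw⟩ := Finsupp.support_nonempty_iff.2 hc.1
  exact countable_zeros h (c.support.sup List.length + 1) c.support _
    (fun w hw => ⟨hc.2 w hw, Nat.lt_succ_of_le (Finset.le_sup (f := List.length) hw)⟩)
    ⟨w, hw, fun h0 => (Finsupp.mem_support_iff.1 hw) (by exact_mod_cast h0)⟩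

/-- The exceptional sets. -/
theorem countable_dep (h : Fam A e J₀ κ M) [Countable K] :
    {J : Set ℕ | ¬ Ind K (A J)}.Countable := by
  refine (countable_iUnion fun c : {c : List ℕ →₀ K // NZ K c} =>
    countable_zeros_L K h c.1 c.2).mono fun J hJ => ?_
  obtain ⟨c, hc, h0⟩ := not_ind K hJ
  exact mem_iUnion.2 ⟨⟨c, hc⟩, h0⟩

end LI

end Pool.Agent.H8.EF
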