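import Pool.Agent.H8.EF.Av
import Pool.Agent.H8.TS.Fast

/-!
# Removing the multiples of the elements of a set which grows fast enough
-/

set_option autoImplicit false

open Set Filter Topology

namespace Pool.Agent.H8.EF

open Pool.Agent.H8.TS (Z P Big F F_main F_lip P_mono P_Ici_le P_two_le mem_drop)

variable (K : Subfield ℂ) (B : Set ℕ)

/-- The growth function: combinations with small codes over finite changes of `B` vanish or are not
very small. -/
theorem exists_growth [Countable K] : ∃ (enc : (List ℕ →₀ K) → ℕ) (φ : ℕ → ℕ),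
    (∀ N, 1 ≤ φ N) ∧ ∀ (c : List ℕ →₀ K) (C : ℝ), ∃ N₀ : ℕ, ∀ N : ℕ, N₀ ≤ N → enc c ≤ N →
      ∀ X : Set ℕ, X ⊆ Iic N → L K c (av B X) = 0 ∨ 2 * C / φ N < ‖L K c (av B X)‖ := by
  classical
  obtain ⟨enc, henc⟩ := Countable.exists_injective_nat (List ℕ →₀ K)
  have h1 : ∀ N : ℕ, ∃ M : ℕ, 1 ≤ M ∧ ∀ c ∈ {c : List ℕ →₀ K | enc c ≤ N}, ∀ X ∈ {X : Set ℕ | X ⊆ Iic N},
      L K c (av B X) = 0 ∨ 2 * (N : ℝ) / M < ‖L K c (av B X)‖ := by
    intro N
    have hf1 : {c : List ℕ →₀ K | enc c ≤ N}.Finite :=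
      (finite_Iic N).preimage henc.injOn
    have hf2 : {X : Set ℕ | X ⊆ Iic N}.Finite := (finite_Iic N).finite_subsets
    have h2 : ∀ᶠ M : ℕ in atTop, ∀ c ∈ {c : List ℕ →₀ K | enc c ≤ N},
        ∀ X ∈ {X : Set ℕ | X ⊆ Iic N},
        L K c (av B X) = 0 ∨ 2 * (N : ℝ) / M < ‖L K c (av B X)‖ := by
      rw [hf1.eventually_all]
      intro c _
      rw [hf2.eventually_all]
      intro X _
      by_cases h0 : L K c (av B X) = 0
      · exact Eventually.of_forall fun _ => Or.inl h0
      · have h3 : Tendsto (fun M : ℕ => 2 * (N : ℝ) / M) atTop (𝓝 0) :=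
          tendsto_const_div_atTop_nhds_zero_nat _
        filter_upwards [h3.eventually (gt_mem_nhds (norm_pos_iff.2 h0))] with M hM
        exact Or.inr hM
    obtain ⟨M, hM1, hM2⟩ := ((eventually_ge_atTop 1).and h2).exists
    exact ⟨M, hM1, hM2⟩
  choose φ hφ1 hφ using h1
  refine ⟨enc, φ, hφ1, fun c C => ⟨⌈C⌉₊, fun N hN hencN X hX => ?_⟩⟩
  rcases hφ N c hencN X hX with h | h
  · exact Or.inl h
  · refine Or.inr (lt_of_le_of_lt ?_ h)
    have h2 : C ≤ N := (Nat.le_ceil C).trans (by exact_mod_cast hN)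
    have h3 : (0 : ℝ) < φ N := by exact_mod_cast hφ1 N
    gcongr

/-- The condition on the set `D`: infinite, elements at least two, pairwise coprime, `B` invariant,
and growth `φ`. -/
structure Grows (B : Set ℕ) (φ : ℕ → ℕ) (D : Set ℕ) : Prop where
  inf : D.Infinite
  two : ∀ d ∈ D, 2 ≤ d
  cop : ∀ d ∈ D, ∀ d' ∈ D, d ≠ d' → Nat.Coprime d d'
  inv : ∀ d ∈ D, Inv B d
  fast : ∀ d ∈ D, ∀ d' ∈ D, d < d' → φ d ≤ d'

/-- Sets which grow fast enough: all nonzero combinations are not zero. -/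
theorem exists_fast [Countable K] (hB : ∃ m ∈ B, 0 < m) : ∃ φ : ℕ → ℕ, ∀ D : Set ℕ,
    Grows B φ D → ∀ (n : ℕ) (c : List ℕ →₀ K), c ≠ 0 → (∀ w ∈ c.support, Big w ∧ w.length < n) →
      L K c (av B D) ≠ 0 := by
  classical
  obtain ⟨enc, φ, hφ1, hφ⟩ := exists_growth K B
  refine ⟨φ, fun D hDg n => ?_⟩
  obtain ⟨hD, hD2, hDc, hDi, hDφ⟩ := hDg
  obtain ⟨m₀, hm₀, hmem⟩ := exists_mem (B := B) (E := D) hB fun d hd => ⟨hD2 d hd, hDi d hd⟩
  have hm₀' : (0 : ℝ) < m₀ := by exact_mod_cast hm₀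
  induction n with
  | zero =>
    intro c hc hs
    obtain ⟨w, hw⟩ := Finsupp.support_nonempty_iff.2 hc
    exact absurd (hs w hw).2 (Nat.not_lt_zero _)
  | succ n ih =>
    intro c hc hs
    by_cases hne : ∃ k, ∃ l, k :: l ∈ c.support
    · intro hzero
      obtain ⟨l₀, hl₀⟩ := Nat.find_spec hne
      set k := Nat.find hne with hkdef
      have hk : 2 ≤ k := (hs _ hl₀).1.head
      obtain ⟨C, hC, hmain⟩ := F_main (k := k) c.support (fun w => (c w : ℂ))
        (fun w hw => (hs w hw).1) (fun k' l h1 _ => Nat.find_min' hne ⟨l, h1⟩)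
      set c' : List ℕ →₀ K := Finsupp.comapDomain (List.cons k) c (List.cons_injective.injOn)
        with hc'
      have hsupp : c'.support = Pool.Agent.H8.TS.drop k c.support := rfl
      have hL' : ∀ A, L K c' A =
          F (Pool.Agent.H8.TS.drop k c.support) (fun l => (c (k :: l) : ℂ)) A := fun A => rfl
      have hc'0 : c' ≠ 0 := by
        intro h0
        have h1 : c' l₀ = 0 := by rw [h0]; rfl
        exact Finsupp.mem_support_iff.1 hl₀ h1
      have hs' : ∀ l ∈ c'.support, Big l ∧ l.length < n := by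
        intro l hl
        rw [hsupp] at hl
        have h1 := hs _ (mem_drop.1 hl)
        refine ⟨h1.1.tail, ?_⟩
        have h2 := h1.2
        rw [List.length_cons] at h2
        omega
      have hG := ih c' hc'0 hs'
      obtain ⟨C₁, hC₁, hlip⟩ := F_lip c.support (fun w => (c w : ℂ)) (fun w hw => (hs w hw).1)
      obtain ⟨C₂, hC₂, hlip'⟩ := F_lip c'.support (fun w => (c' w : ℂ)) (fun w hw => (hs' w hw).1)
      obtain ⟨N₀, hN₀⟩ := hφ c C₁
      -- the values over the initial segments vanish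
      have hfar : ∀ d N : ℕ, (∀ x ∈ D, d < x → N ≤ x) →
          symmDiff (av B (D ∩ Iic d)) (av B D) ⊆ Ici N := by
        intro d N hN m hm
        rw [mem_symmDiff] at hm
        rcases hm with ⟨h5, h6⟩ | ⟨h5, h6⟩
        · by_contra hc
          refine h6 ⟨h5.1, h5.2.1, fun x hx hdvd => ?_⟩
          have h7 := Nat.le_of_dvd h5.2.1 hdvd
          rcases le_or_gt x d with h8 | h8
          · exact h5.2.2 x ⟨hx, h8⟩ hdvd
          · exact hc ((hN x hx h8).trans h7)
        · exact absurd ⟨h5.1, h5.2.1, fun x hx => h5.2.2 x hx.1⟩ h6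
      have hcut : ∀ d ∈ D, N₀ ≤ d → enc c ≤ d → L K c (av B (D ∩ Iic d)) = 0 := by
        intro d hd h1 h2
        rcases hN₀ d h1 h2 (D ∩ Iic d) inter_subset_right with h | h
        · exact h
        · exfalso
          have h3 := hlip (av B (D ∩ Iic d)) (av B D)
          have h4 := hfar d (φ d) fun x hx hdx => hDφ d hd x hx hdx
          have h5 := (P_mono le_rfl h4).trans (P_Ici_le (hφ1 d))
          have h6 : ‖L K c (av B (D ∩ Iic d))‖ ≤ C₁ * (2 / φ d) := by
            have h7 : L K c (av B D) = 0 := hzero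
            have h8 : F c.support (fun w => (c w : ℂ)) (av B D) = 0 := h7
            rw [h8, sub_zero] at h3
            exact h3.trans (by gcongr)
          have h7 : C₁ * (2 / (φ d : ℝ)) = 2 * C₁ / φ d := by ring
          rw [h7] at h6
          exact absurd h (not_lt.2 h6)
      -- the leading coefficient is small
      have hsmall : ∀ N : ℕ, ∃ d : ℕ, N ≤ d ∧ 1 ≤ d ∧
          ‖L K c' (av B D)‖ ≤ (2 * C * (m₀ : ℝ) ^ k + 2 * C₂) / d := by
        intro N
        obtain ⟨d, hd, hdN⟩ := hD.exists_gt (max N (max N₀ (enc c)))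
        have hex : ∃ x, x ∈ D ∧ d < x := by
          obtain ⟨x, hx, hx'⟩ := hD.exists_gt d
          exact ⟨x, hx, hx'⟩
        obtain ⟨hx1, hx2⟩ := Nat.find_spec hex
        set x := Nat.find hex with hxdef
        have hNd : N < d := lt_of_le_of_lt (le_max_left _ _) hdN
        have hN0d : N₀ ≤ d := ((le_max_left _ _).trans (le_max_right _ _)).trans hdN.le
        have hed : enc c ≤ d := ((le_max_right _ _).trans (le_max_right _ _)).trans hdN.le
        have hx0 : 1 ≤ x := by omega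
        have hz1 := hcut d hd hN0d hed
        have hz2 := hcut x hx1 (hN0d.trans hx2.le) (hed.trans hx2.le)
        set A₀ := av B (D ∩ Iic d) with hA₀
        set A₁ := av B (D ∩ Iic x) with hA₁
        have hA : A₁ = A₀ \ (A₀ ∩ mul x) := by
          ext m
          constructor
          · intro hm
            refine ⟨⟨hm.1, hm.2.1, fun y hy => hm.2.2 y ⟨hy.1, ?_⟩⟩, fun h => ?_⟩
            · have : y ≤ d := hy.2
              show y ≤ x
              omega
            · exact hm.2.2 x ⟨hx1, le_refl x⟩ h.2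
          · rintro ⟨hm, hmx⟩
            refine ⟨hm.1, hm.2.1, fun y hy hdvd => ?_⟩
            rcases le_or_gt y d with h8 | h8
            · exact hm.2.2 y ⟨hy.1, h8⟩ hdvd
            · have h5 : x ≤ y := Nat.find_min' hex ⟨hy.1, h8⟩
              have h6 : y ≤ x := hy.2
              have h7 : y = x := le_antisymm h6 h5
              subst h7
              exact hmx ⟨hm, hdvd⟩
        have hPx : ∀ k, 2 ≤ k → P k (A₀ ∩ mul x) = ((x : ℝ) ^ k)⁻¹ * P k A₀ := fun k hk =>
          P_mult hk (by omega) (av_mul (by omega) (hDi x hx1) fun d' hd' =>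
            hDc d' hd'.1 x hx1 (by have : d' ≤ d := hd'.2; omega))
        have hPd : P k A₁ - P k A₀ = -(((x : ℝ) ^ k)⁻¹ * P k A₀) := by
          rw [hA, P_diff hk inter_subset_left, hPx k hk]
          ring
        have hsd : symmDiff A₁ A₀ = A₀ ∩ mul x := by
          ext y
          rw [mem_symmDiff, hA]
          constructor
          · rintro (⟨h1, h2⟩ | ⟨h1, h2⟩)
            · exact absurd h1.1 h2
            · by_contra hc
              exact h2 ⟨h1, hc⟩
          · intro h
            exact Or.inr ⟨h.1, fun h' => h'.2 h⟩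
        have hag : ∀ m < x, m ∈ A₁ ↔ m ∈ A₀ := by
          intro m hm
          rw [hA]
          constructor
          · exact fun h => h.1
          · intro h
            exact ⟨h, fun h' => absurd (Nat.le_of_dvd h.2.1 h'.2) (not_le.2 hm)⟩
        have h1 := hmain _ _ x hx0 hag
        have h2 : F c.support (fun w => (c w : ℂ)) A₁ = 0 := hz2
        have h3 : F c.support (fun w => (c w : ℂ)) A₀ = 0 := hz1
        have hPk : ((m₀ : ℝ) ^ k)⁻¹ ≤ P k A₀ := P_ge_of_mem hk (hmem _ inter_subset_left)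
        have hPk0 : 0 ≤ P k A₀ := le_trans (by positivity) hPk
        rw [h2, h3, sub_zero, zero_sub, norm_neg, norm_mul, Complex.norm_real, Real.norm_eq_abs,
          hPd, abs_neg, abs_of_nonneg (by positivity), hsd, hPx 2 le_rfl, ← hL'] at h1
        have hx' : (0 : ℝ) < x := by exact_mod_cast hx0
        have hxk : (0 : ℝ) < ((x : ℝ) ^ k)⁻¹ := by positivity
        have hP2 := P_two_le A₀
        have hP20 := Pool.Agent.H8.TS.P_nonneg 2 A₀
        have h4 : ‖L K c' A₁‖ ≤ 2 * C * (m₀ : ℝ) ^ k / x := by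
          have hn : 0 ≤ ‖L K c' A₁‖ := norm_nonneg _
          have h5 : ‖L K c' A₁‖ * ((m₀ : ℝ) ^ k)⁻¹ * ((x : ℝ) ^ k)⁻¹ ≤
              2 * C / x * ((x : ℝ) ^ k)⁻¹ := by
            calc ‖L K c' A₁‖ * ((m₀ : ℝ) ^ k)⁻¹ * ((x : ℝ) ^ k)⁻¹
                ≤ ‖L K c' A₁‖ * P k A₀ * ((x : ℝ) ^ k)⁻¹ := by gcongr
              _ = ‖L K c' A₁‖ * (((x : ℝ) ^ k)⁻¹ * P k A₀) := by ring
              _ ≤ C * ((x : ℝ) * ((x : ℝ) ^ k)⁻¹ * (((x : ℝ) ^ 2)⁻¹ * P 2 A₀)) := h1
              _ ≤ C * ((x : ℝ) * ((x : ℝ) ^ k)⁻¹ * (((x : ℝ) ^ 2)⁻¹ * 2)) := by gcongr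
              _ = 2 * C / x * ((x : ℝ) ^ k)⁻¹ := by field_simp
          have h6 := le_of_mul_le_mul_right h5 hxk
          have h7 : (0 : ℝ) < (m₀ : ℝ) ^ k := by positivity
          rw [mul_inv_le_iff₀ h7] at h6
          calc ‖L K c' A₁‖ ≤ 2 * C / x * (m₀ : ℝ) ^ k := h6
            _ = 2 * C * (m₀ : ℝ) ^ k / x := by ring
        have h5 := hlip' (av B D) A₁
        have h6 : symmDiff (av B D) A₁ ⊆ Ici x := by
          rw [symmDiff_comm]
          exact hfar x x fun y _ hy => hy.le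
        have h7 := (P_mono le_rfl h6).trans (P_Ici_le hx0)
        have h8 : ‖L K c' (av B D) - L K c' A₁‖ ≤ C₂ * (2 / x) :=
          h5.trans (by gcongr)
        refine ⟨x, by omega, hx0, ?_⟩
        calc ‖L K c' (av B D)‖ ≤ ‖L K c' A₁‖ +
              ‖L K c' (av B D) - L K c' A₁‖ := norm_le_insert' _ _
          _ ≤ 2 * C * (m₀ : ℝ) ^ k / x + C₂ * (2 / x) := add_le_add h4 h8
          _ = (2 * C * (m₀ : ℝ) ^ k + 2 * C₂) / x := by ring
      have hpos : 0 < ‖L K c' (av B D)‖ := norm_pos_iff.2 hG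
      obtain ⟨N, hN⟩ := exists_nat_gt ((2 * C * (m₀ : ℝ) ^ k + 2 * C₂) / ‖L K c' (av B D)‖)
      obtain ⟨d, hdN, hd1, hd⟩ := hsmall N
      have hd' : (0 : ℝ) < d := by exact_mod_cast hd1
      rw [le_div_iff₀ hd'] at hd
      rw [div_lt_iff₀ hpos] at hN
      have h9 : (N : ℝ) ≤ d := by exact_mod_cast hdN
      nlinarith
    · push Not at hne
      obtain ⟨w, hw⟩ := Finsupp.support_nonempty_iff.2 hc
      have hw0 : w = [] := by
        cases w with
        | nil => rfl
        | cons k l => exact absurd hw (hne k l)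
      subst hw0
      have h2 : L K c (av B D) = (c [] : ℂ) := by
        unfold L F
        rw [Finset.sum_eq_single_of_mem [] hw]
        · simp [Z]
        · intro w hw' hwn
          cases w with
          | nil => exact absurd rfl hwn
          | cons k l => exact absurd hw' (hne k l)
      rw [h2]
      intro h0
      exact (Finsupp.mem_support_iff.1 hw) (by exact_mod_cast h0)

/-- Sets which grow fast enough: linear independence. -/
theorem exists_fast_ind [Countable K] (hB : ∃ m ∈ B, 0 < m) : ∃ φ : ℕ → ℕ, ∀ D : Set ℕ,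
    Grows B φ D → Ind K (av B D) := by
  obtain ⟨φ, hφ⟩ := exists_fast K B hB
  refine ⟨φ, fun D hD => ?_⟩
  by_contra h
  obtain ⟨c, hc, h0⟩ := not_ind K h
  exact hφ D hD (c.support.sup List.length + 1) c hc.1
    (fun w hw => ⟨hc.2 w hw, Nat.lt_succ_of_le (Finset.le_sup (f := List.length) hw)⟩) h0

end Pool.Agent.H8.EF
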