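import Pool.Agent.H8.EF.Av
import Pool.Agent.H8.TS.Fast

/-!
# Almost every set of primes, and generic sets of primes

A set of primes is given by `x : Nat.Primes → ZMod 2`, `p` is in the set if `x p = 1`.
-/

set_option autoImplicit false

open Set Filter Topology MeasureTheory

namespace Pool.Agent.H8.EF

open Pool.Agent.H8.TS (Z P Big F F_main F_lip P_mono P_Ici_le P_two_le mem_drop Sparse)

/-- The set of the primes with `x p = 1`. -/
def prm (x : Nat.Primes → ZMod 2) : Set ℕ := {n | ∃ p : Nat.Primes, x p = 1 ∧ (p : ℕ) = n}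

theorem av_union (B D D' : Set ℕ) : av B (D ∪ D') = av (av B D) D' := by
  ext m
  constructor
  · rintro ⟨h1, h2, h3⟩
    exact ⟨⟨h1, h2, fun d hd => h3 d (Or.inl hd)⟩, h2, fun d hd => h3 d (Or.inr hd)⟩
  · rintro ⟨⟨h1, h2, h3⟩, _, h4⟩
    refine ⟨h1, h2, fun d hd => ?_⟩
    rcases hd with hd | hd
    · exact h3 d hd
    · exact h4 d hd

theorem inv_univ (d : ℕ) : Inv univ d := fun _ _ => ⟨fun _ => mem_univ _, fun _ => mem_univ _⟩

/-- A prime at least `n`. -/
noncomputable def nxt (n : ℕ) : Nat.Primes :=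
  ⟨Classical.choose (Nat.exists_infinite_primes n), (Classical.choose_spec (Nat.exists_infinite_primes n)).2⟩

theorem le_nxt (n : ℕ) : n ≤ (nxt n : ℕ) := (Classical.choose_spec (Nat.exists_infinite_primes n)).1

/-- A sparse sequence of primes larger than `M`. -/
noncomputable def sq (M : ℕ) : ℕ → Nat.Primes
  | 0 => nxt (M + 1)
  | j + 1 => nxt (2 * (sq M j : ℕ) + 1)

theorem sq_succ (M j : ℕ) : 2 * (sq M j : ℕ) + 1 ≤ (sq M (j + 1) : ℕ) := le_nxt _

theorem sq_mono (M : ℕ) : StrictMono fun j => (sq M j : ℕ) :=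
  strictMono_nat_of_lt_succ fun j => by have := sq_succ M j; omega

theorem sq_gt (M j : ℕ) : M < (sq M j : ℕ) := by
  have h1 : M + 1 ≤ (sq M 0 : ℕ) := le_nxt _
  have h2 : (sq M 0 : ℕ) ≤ (sq M j : ℕ) := (sq_mono M).monotone (Nat.zero_le j)
  omega

theorem sq_inj (M : ℕ) : Function.Injective (sq M) := fun a b h =>
  (sq_mono M).injective (by simp only [h])

theorem sq_sparse (M : ℕ) : Sparse (fun j => (sq M j : ℕ)) 2 0 where
  mono := sq_mono M
  pos := fun j => (sq M j).2.pos
  one := by norm_num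
  two := by norm_num
  ratio := fun j _ => by
    have := sq_succ M j
    have h : ((2 * (sq M j : ℕ) : ℕ) : ℝ) ≤ ((sq M (j + 1) : ℕ) : ℝ) := by exact_mod_cast (by omega)
    push_cast at h
    exact h

/-- The primes of `x` off the sequence. -/
def off (M : ℕ) (x : Nat.Primes → ZMod 2) : Set ℕ :=
  {n | ∃ p : Nat.Primes, x p = 1 ∧ p ∉ range (sq M) ∧ (p : ℕ) = n}

/-- The set of the places with `x = 1`. -/
def idx (M : ℕ) (x : Nat.Primes → ZMod 2) : Set ℕ := {j | x (sq M j) = 1}

theorem prm_eq (M : ℕ) (x : Nat.Primes → ZMod 2) :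
    prm x = off M x ∪ (fun j => (sq M j : ℕ)) '' idx M x := by
  ext n
  constructor
  · rintro ⟨p, hp, rfl⟩
    by_cases h : p ∈ range (sq M)
    · obtain ⟨j, rfl⟩ := h
      exact Or.inr ⟨j, hp, rfl⟩
    · exact Or.inl ⟨p, hp, h, rfl⟩
  · rintro (⟨p, hp, _, rfl⟩ | ⟨j, hj, rfl⟩)
    · exact ⟨p, hp, rfl⟩
    · exact ⟨sq M j, hj, rfl⟩

theorem cop_primes {p q : Nat.Primes} (h : p ≠ q) : Nat.Coprime (p : ℕ) (q : ℕ) :=
  (Nat.coprime_primes p.2 q.2).2 fun h' => h (Subtype.ext h')

theorem seq_off (M : ℕ) (x : Nat.Primes → ZMod 2) :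
    Seq (av univ (off M x)) (fun j => (sq M j : ℕ)) 2 0 where
  sp := sq_sparse M
  two := fun j => (sq M j).2.two_le
  cop := fun i j hij => cop_primes fun h => hij (sq_inj M h)
  inv := fun j m _ => av_mul (sq M j).2.pos (inv_univ _) (by
    rintro _ ⟨p, _, hp, rfl⟩
    exact cop_primes fun h => hp ⟨j, h.symm⟩) m
  ne := ⟨1, ⟨mem_univ _, Nat.one_pos, by
    rintro _ ⟨p, _, _, rfl⟩ h
    exact p.2.one_lt.ne' (Nat.dvd_one.1 h)⟩, Nat.one_pos⟩

variable (K : Subfield ℂ)

/-- The zeros in one class. -/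
theorem countable_class (c : List ℕ →₀ K) (hc : NZ K c) (M : ℕ) (x : Nat.Primes → ZMod 2) :
    {J : Set ℕ | L K c (av (av univ (off M x)) ((fun j => (sq M j : ℕ)) '' J)) = 0}.Countable := by
  obtain ⟨κ, hκ⟩ := fam (seq_off M x)
  exact countable_zeros_L K hκ c hc

theorem idx_inj (M : ℕ) {x y : Nat.Primes → ZMod 2} (h : idx M x = idx M y) (j : ℕ) :
    x (sq M j) = y (sq M j) := by
  have h1 : x (sq M j) = 1 ↔ y (sq M j) = 1 := by
    have := Set.ext_iff.1 h j
    exact this
  have key : ∀ a b : ZMod 2, (a = 1 ↔ b = 1) → a = b := by decide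
  exact key _ _ h1

/-- The set of the zeros. -/
def zer (c : List ℕ →₀ K) : Set (Nat.Primes → ZMod 2) := {x | L K c (av univ (prm x)) = 0}

theorem finite_primes_le (M : ℕ) : {p : Nat.Primes | (p : ℕ) ≤ M}.Finite :=
  Set.Finite.preimage (Subtype.val_injective.injOn) (finite_Iic M)

theorem zer_closed (c : List ℕ →₀ K) (hc : NZ K c) : IsClosed (zer K c) := by
  have hcont : Continuous fun x : Nat.Primes → ZMod 2 => L K c (av univ (prm x)) := by
    rw [continuous_iff_continuousAt]
    intro x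
    obtain ⟨C, hC, hlip⟩ := F_lip c.support (fun w => (c w : ℂ)) hc.2
    rw [ContinuousAt, Metric.tendsto_nhds]
    intro ε hε
    obtain ⟨M, hM⟩ := exists_nat_gt (2 * C / ε)
    have h1 : ∀ᶠ y in 𝓝 x, ∀ p ∈ {p : Nat.Primes | (p : ℕ) ≤ M}, y p = x p := by
      rw [(finite_primes_le M).eventually_all]
      intro p _
      exact (continuous_apply p).tendsto x ((isOpen_discrete {x p}).mem_nhds rfl)
    filter_upwards [h1] with y hy
    rw [dist_eq_norm]
    refine lt_of_le_of_lt (hlip _ _) ?_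
    have h2 : symmDiff (av univ (prm y)) (av univ (prm x)) ⊆ Ici (M + 1) := by
      intro m hm
      by_contra hcon
      have hmM : m ≤ M := by
        have : ¬ (M + 1 ≤ m) := hcon
        omega
      have key : ∀ x y : Nat.Primes → ZMod 2, (∀ p ∈ {p : Nat.Primes | (p : ℕ) ≤ M}, y p = x p) →
          m ∈ av univ (prm y) → m ∈ av univ (prm x) := by
        intro x y hy h
        refine ⟨mem_univ _, h.2.1, ?_⟩
        rintro _ ⟨p, hp, rfl⟩ hdvd
        have hpM : (p : ℕ) ≤ M := (Nat.le_of_dvd h.2.1 hdvd).trans hmM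
        exact h.2.2 p ⟨p, by rw [hy p hpM, hp], rfl⟩ hdvd
      rw [mem_symmDiff] at hm
      rcases hm with ⟨h3, h4⟩ | ⟨h3, h4⟩
      · exact h4 (key x y hy h3)
      · exact h4 (key y x (fun p hp => (hy p hp).symm) h3)
    have h3 := (P_mono le_rfl h2).trans (P_Ici_le (by omega))
    have h4 : (0 : ℝ) < (M + 1 : ℕ) := by positivity
    calc C * P 2 (symmDiff (av univ (prm y)) (av univ (prm x))) ≤ C * (2 / (M + 1 : ℕ)) := by gcongr
      _ = 2 * C / (M + 1 : ℕ) := by ring
      _ < ε := by
        rw [div_lt_iff₀ h4]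
        rw [div_lt_iff₀ hε] at hM
        push_cast
        nlinarith
  exact isClosed_eq hcont continuous_const

theorem uncountable_sets : ¬ (univ : Set (Set ℕ)).Countable := by
  rw [countable_univ_iff]
  intro h
  obtain ⟨f, hf⟩ := Countable.exists_injective_nat (Set ℕ)
  exact Function.cantor_injective f hf

open scoped Classical in
/-- `x` changed on the sequence. -/
noncomputable def chg (M : ℕ) (x : Nat.Primes → ZMod 2) (J : Set ℕ) : Nat.Primes → ZMod 2 :=
  fun p => if p ∈ range (sq M) then (if p ∈ sq M '' J then 1 else 0) else x p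

theorem chg_off (M : ℕ) (x : Nat.Primes → ZMod 2) (J : Set ℕ) : off M (chg M x J) = off M x := by
  ext n
  constructor
  · rintro ⟨p, h1, h2, rfl⟩
    refine ⟨p, ?_, h2, rfl⟩
    rwa [chg, if_neg h2] at h1
  · rintro ⟨p, h1, h2, rfl⟩
    refine ⟨p, ?_, h2, rfl⟩
    rwa [chg, if_neg h2]

theorem chg_idx (M : ℕ) (x : Nat.Primes → ZMod 2) (J : Set ℕ) : idx M (chg M x J) = J := by
  classical
  ext j
  have h1 : chg M x J (sq M j) = if sq M j ∈ sq M '' J then 1 else 0 := by
    rw [chg, if_pos (mem_range_self j)]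
  have h2 : sq M j ∈ sq M '' J ↔ j ∈ J := (sq_inj M).mem_set_image
  show chg M x J (sq M j) = 1 ↔ j ∈ J
  rw [h1]
  by_cases hj : j ∈ J
  · rw [if_pos (h2.2 hj)]; simp [hj]
  · rw [if_neg (fun h => hj (h2.1 h))]; simp [hj]

theorem zer_residual (c : List ℕ →₀ K) (hc : NZ K c) : (zer K c)ᶜ ∈ residual (Nat.Primes → ZMod 2) := by
  refine residual_of_dense_open (zer_closed K c hc).isOpen_compl ?_
  rw [dense_iff_inter_open]
  rintro U hU ⟨x, hx⟩
  obtain ⟨I, u, hu, hIU⟩ := isOpen_pi_iff.1 hU x hx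
  set M : ℕ := I.sup fun p => (p : ℕ) with hM
  by_contra hcon
  apply uncountable_sets
  refine (countable_class K c hc M x).mono fun J _ => ?_
  by_contra hJ
  apply hcon
  refine ⟨chg M x J, hIU ?_, ?_⟩
  · intro p hp
    have h1 : (p : ℕ) ≤ M := Finset.le_sup (f := fun p : Nat.Primes => (p : ℕ)) hp
    have h2 : p ∉ range (sq M) := by
      rintro ⟨j, rfl⟩
      have := sq_gt M j
      omega
    rw [chg, if_neg h2]
    exact (hu p hp).2
  · intro h
    apply hJ
    have h3 : L K c (av univ (prm (chg M x J))) = 0 := h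
    rw [prm_eq M, av_union, chg_off, chg_idx] at h3
    exact h3

instance neBot_zero : (𝓝[≠] (0 : ℕ → ZMod 2)).NeBot := by
  have h1 : Tendsto (fun n : ℕ => (Pi.single n 1 : ℕ → ZMod 2)) atTop (𝓝[≠] 0) := by
    rw [tendsto_nhdsWithin_iff]
    refine ⟨tendsto_pi_nhds.2 fun i => ?_, Eventually.of_forall fun n => ?_⟩
    · refine tendsto_const_nhds.congr' ?_
      filter_upwards [eventually_gt_atTop i] with n hn
      rw [Pi.single_eq_of_ne (by omega)]
      rfl
    · intro h
      have := congrFun h n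
      rw [Pi.single_eq_same] at this
      exact one_ne_zero this
  exact h1.neBot

instance nullSing : NullSingletonClass (Measure.addHaar : Measure (ℕ → ZMod 2)) := inferInstance

theorem zer_null (c : List ℕ →₀ K) (hc : NZ K c) :
    (Measure.addHaar : Measure (Nat.Primes → ZMod 2)) (zer K c) = 0 := by
  set μ : Measure (Nat.Primes → ZMod 2) := Measure.addHaar with hμ
  set ν : Measure (ℕ → ZMod 2) := Measure.addHaar with hν
  set ι : (ℕ → ZMod 2) → (Nat.Primes → ZMod 2) := fun t => Function.extend (sq 0) t 0 with hι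
  have hιc : Continuous ι := by
    refine continuous_pi fun p => ?_
    by_cases hp : ∃ j, sq 0 j = p
    · obtain ⟨j, rfl⟩ := hp
      have : (fun t : ℕ → ZMod 2 => ι t (sq 0 j)) = fun t => t j :=
        funext fun t => (sq_inj 0).extend_apply t (0 : Nat.Primes → ZMod 2) j
      rw [this]
      exact continuous_apply j
    · have : (fun t : ℕ → ZMod 2 => ι t p) = fun _ => 0 :=
        funext fun t => Function.extend_apply' t (0 : Nat.Primes → ZMod 2) p hp
      rw [this]
      exact continuous_const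
  set S : Set ((Nat.Primes → ZMod 2) × (ℕ → ZMod 2)) := {z | z.1 + ι z.2 ∈ zer K c} with hS
  have hSm : MeasurableSet S := by
    have h1 : IsClosed S := (zer_closed K c hc).preimage
      (continuous_fst.add (hιc.comp continuous_snd))
    exact h1.measurableSet
  have h1 : (μ.prod ν) S = 0 := by
    rw [Measure.measure_prod_null hSm]
    refine Eventually.of_forall fun x => ?_
    have h2 : (Prod.mk x ⁻¹' S).Countable := by
      have hinj : Function.Injective fun t : ℕ → ZMod 2 => idx 0 (x + ι t) := by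
        intro t t' htt
        funext j
        have h3 := idx_inj 0 htt j
        simp only [Pi.add_apply, hι, (sq_inj 0).extend_apply] at h3
        exact add_left_cancel h3
      refine ((countable_class K c hc 0 x).preimage hinj).mono fun t ht => ?_
      have h4 : L K c (av univ (prm (x + ι t))) = 0 := ht
      rw [prm_eq 0, av_union] at h4
      have h5 : off 0 (x + ι t) = off 0 x := by
        have key : ∀ p : Nat.Primes, p ∉ range (sq 0) → (x + ι t) p = x p := by
          intro p hp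
          have : ι t p = 0 := Function.extend_apply' t (0 : Nat.Primes → ZMod 2) p hp
          rw [Pi.add_apply, this, add_zero]
        ext n
        constructor
        · rintro ⟨p, h1, h2, rfl⟩
          exact ⟨p, by rwa [key p h2] at h1, h2, rfl⟩
        · rintro ⟨p, h1, h2, rfl⟩
          exact ⟨p, by rwa [key p h2], h2, rfl⟩
      rw [h5] at h4
      exact h4
    exact h2.measure_zero ν
  have h2 : (μ.prod ν) S = ∫⁻ t, μ ((fun x => (x, t)) ⁻¹' S) ∂ν := Measure.prod_apply_symm hSm
  have h3 : ∀ t, μ ((fun x => (x, t)) ⁻¹' S) = μ (zer K c) := fun t =>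
    measure_preimage_add_right μ (ι t) (zer K c)
  rw [h2] at h1
  simp only [h3, lintegral_const] at h1
  have h4 : ν univ ≠ 0 := by
    have : ν.IsOpenPosMeasure := inferInstance
    exact isOpen_univ.measure_ne_zero ν univ_nonempty
  exact (mul_eq_zero.1 h1).resolve_right h4

/-- Generic and almost every set of primes. -/
theorem generic_ind [Countable K] :
    {x | Ind K (av univ (prm x))} ∈ residual (Nat.Primes → ZMod 2) ∧
      ∀ᵐ x ∂(Measure.addHaar : Measure (Nat.Primes → ZMod 2)), Ind K (av univ (prm x)) := by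
  constructor
  · have h1 : (⋂ c : {c : List ℕ →₀ K // NZ K c}, (zer K c.1)ᶜ) ∈ residual (Nat.Primes → ZMod 2) :=
      countable_iInter_mem.2 fun c => zer_residual K c.1 c.2
    refine mem_of_superset h1 fun x hx => ?_
    by_contra h
    obtain ⟨c, hc, h0⟩ := not_ind K h
    exact mem_iInter.1 hx ⟨c, hc⟩ h0
  · have h1 : ∀ᵐ x ∂(Measure.addHaar : Measure (Nat.Primes → ZMod 2)),
        ∀ c : {c : List ℕ →₀ K // NZ K c}, x ∉ zer K c.1 :=
      eventually_countable_forall.2 fun c => measure_eq_zero_iff_ae_notMem.1 (zer_null K c.1 c.2)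
    filter_upwards [h1] with x hx
    by_contra h
    obtain ⟨c, hc, h0⟩ := not_ind K h
    exact hx ⟨c, hc⟩ h0

end Pool.Agent.H8.EF
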