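import Pool.Agent.H8.EF.Dep

/-!
# The product of a power sum and a multiple zeta value over a set
-/

set_option autoImplicit false

open Set

namespace Pool.Agent.H8.EF

open Pool.Agent.H8.TS (Z P Big P_mono summable_ind Z_summable Z_bd summable_pow pow_nonneg' pow_anti)

/-- The stuffle product of a letter and a word, as a list of words. -/
def stf (k : ℕ) : List ℕ → List (List ℕ)
  | [] => [[k]]
  | a :: l => (k :: a :: l) :: ((a + k) :: l) :: (stf k l).map (List.cons a)

theorem stf_big {k : ℕ} (hk : 2 ≤ k) : ∀ {l : List ℕ}, Big l → ∀ w ∈ stf k l, Big w := by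
  intro l
  induction l with
  | nil =>
    intro _ w hw
    simp only [stf, List.mem_singleton] at hw
    subst hw
    intro a ha
    simp at ha
    omega
  | cons a l ih =>
    intro hl w hw
    simp only [stf, List.mem_cons, List.mem_map] at hw
    rcases hw with rfl | rfl | ⟨w', hw', rfl⟩
    · intro b hb
      rcases List.mem_cons.1 hb with rfl | hb
      · exact hk
      · exact hl b hb
    · intro b hb
      rcases List.mem_cons.1 hb with rfl | hb
      · have := hl.head; omega
      · exact hl.tail b hb
    · intro b hb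
      rcases List.mem_cons.1 hb with rfl | hb
      · exact hl.head
      · exact ih hl.tail w' hw' b hb

/-- Splitting a power sum at `m`. -/
theorem P_split {k : ℕ} (hk : 2 ≤ k) (A : Set ℕ) {m : ℕ} (hm : m ∈ A) :
    P k A = P k (A ∩ Iio m) + ((m : ℝ) ^ k)⁻¹ + P k (A ∩ Ioi m) := by
  have h1 : P k A = P k (A ∩ Iio m) + P k (A \ (A ∩ Iio m)) := by
    rw [P_diff hk inter_subset_left]; ring
  have h2 : P k (A \ (A ∩ Iio m)) = ((m : ℝ) ^ k)⁻¹ + P k (A ∩ Ioi m) := by
    have hs := (summable_ind hk (A \ (A ∩ Iio m))).tsum_eq_add_tsum_ite m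
    have hmem : m ∈ A \ (A ∩ Iio m) := ⟨hm, fun h => absurd h.2 (lt_irrefl m)⟩
    unfold P
    rw [hs, indicator_of_mem hmem]
    congr 1
    refine tsum_congr fun n => ?_
    by_cases hn : n = m
    · subst hn
      rw [if_pos rfl, indicator_of_notMem (fun h => absurd h.2 (lt_irrefl n))]
    · rw [if_neg hn]
      by_cases hnA : n ∈ A
      · rcases lt_or_gt_of_ne hn with h | h
        · rw [indicator_of_notMem (fun h' => h'.2 ⟨hnA, h⟩),
            indicator_of_notMem (fun h' => absurd h'.2 (not_lt.2 h.le))]
        · rw [indicator_of_mem (show n ∈ A \ (A ∩ Iio m) from ⟨hnA, fun h' => absurd h'.2 (not_lt.2 h.le)⟩),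
            indicator_of_mem (show n ∈ A ∩ Ioi m from ⟨hnA, h⟩)]
      · rw [indicator_of_notMem (fun h => hnA h.1), indicator_of_notMem (fun h => hnA h.1)]
  rw [h1, h2]
  ring

/-- The third part: exchange of the summations. -/
theorem third {k a : ℕ} {l : List ℕ} (hk : 2 ≤ k) (hl : Big (a :: l)) (A : Set ℕ) :
    ∑' m : ℕ, A.indicator (fun m => ((m : ℝ) ^ a)⁻¹ * Z l (A ∩ Iio m) * P k (A ∩ Ioi m)) m =
      Z (k :: a :: l) A := by
  set g : ℕ → ℝ := fun m => A.indicator (fun m => ((m : ℝ) ^ a)⁻¹ * Z l (A ∩ Iio m)) m with hg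
  set p : ℕ → ℝ := fun n => A.indicator (fun n => ((n : ℝ) ^ k)⁻¹) n with hp
  have hgs : Summable g := Z_summable hl A
  have hps : Summable p := summable_ind hk A
  have hg0 : ∀ m, 0 ≤ g m := fun m =>
    indicator_nonneg (fun m _ => mul_nonneg (pow_nonneg' a m) (Z_bd l hl.tail _).1) m
  have hp0 : ∀ m, 0 ≤ p m := fun m => indicator_nonneg (fun m _ => pow_nonneg' k m) m
  set f : ℕ → ℕ → ℝ := fun m n => if m < n then g m * p n else 0 with hf
  have hfs : Summable (Function.uncurry f) := by
    refine Summable.of_nonneg_of_le (fun z => ?_) (fun z => ?_)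
      (hgs.mul_of_nonneg hps hg0 hp0)
    · simp only [Function.uncurry, hf]
      split_ifs
      · exact mul_nonneg (hg0 _) (hp0 _)
      · exact le_rfl
    · simp only [Function.uncurry, hf]
      split_ifs
      · exact le_rfl
      · exact mul_nonneg (hg0 _) (hp0 _)
  have h1 : ∀ m, A.indicator (fun m => ((m : ℝ) ^ a)⁻¹ * Z l (A ∩ Iio m) * P k (A ∩ Ioi m)) m =
      ∑' n, f m n := by
    intro m
    have h2 : ∑' n, f m n = g m * P k (A ∩ Ioi m) := by
      unfold P
      rw [← tsum_mul_left]
      refine tsum_congr fun n => ?_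
      simp only [hf, hp]
      by_cases hmn : m < n
      · rw [if_pos hmn]
        by_cases hn : n ∈ A
        · rw [indicator_of_mem hn, indicator_of_mem (show n ∈ A ∩ Ioi m from ⟨hn, hmn⟩)]
        · rw [indicator_of_notMem hn, indicator_of_notMem (fun h => hn h.1)]
      · rw [if_neg hmn, indicator_of_notMem (fun h => hmn h.2), mul_zero]
    rw [h2]
    by_cases hm : m ∈ A
    · simp only [hg, indicator_of_mem hm]
    · simp only [hg, indicator_of_notMem hm, zero_mul]
  have h3 : ∀ n, A.indicator (fun m => ((m : ℝ) ^ k)⁻¹ * Z (a :: l) (A ∩ Iio m)) n =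
      ∑' m, f m n := by
    intro n
    by_cases hn : n ∈ A
    · rw [indicator_of_mem hn, Z, ← tsum_mul_left]
      refine tsum_congr fun m => ?_
      simp only [hf, hg, hp]
      by_cases hmn : m < n
      · rw [if_pos hmn]
        by_cases hm : m ∈ A
        · have h4 : A ∩ Iio n ∩ Iio m = A ∩ Iio m := by
            ext x
            simp only [mem_inter_iff, mem_Iio]
            constructor
            · rintro ⟨⟨h1, _⟩, h2⟩; exact ⟨h1, h2⟩
            · rintro ⟨h1, h2⟩; exact ⟨⟨h1, by omega⟩, h2⟩
          rw [indicator_of_mem (show m ∈ A ∩ Iio n from ⟨hm, hmn⟩), indicator_of_mem hm,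
            indicator_of_mem hn, h4]
          ring
        · rw [indicator_of_notMem (fun h => hm h.1), indicator_of_notMem hm]
          ring
      · rw [if_neg hmn, indicator_of_notMem (fun h => hmn h.2), mul_zero]
    · rw [indicator_of_notMem hn]
      symm
      rw [← tsum_zero (α := ℝ) (β := ℕ)]
      refine tsum_congr fun m => ?_
      simp only [hf, hp, indicator_of_notMem hn, mul_zero, ite_self]
  rw [Z, tsum_congr h1, tsum_congr h3]
  exact hfs.tsum_comm.symm

/-- The stuffle formula for a letter and a word. -/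
theorem stuffle {k : ℕ} (hk : 2 ≤ k) : ∀ l : List ℕ, Big l → ∀ A : Set ℕ,
    P k A * Z l A = ((stf k l).map fun w => Z w A).sum := by
  intro l
  induction l with
  | nil =>
    intro _ A
    simp only [stf, List.map_cons, List.map_nil, List.sum_cons, List.sum_nil, add_zero]
    rw [Z_single]
    simp [Z]
  | cons a l ih =>
    intro hl A
    have ha := hl.head
    have hka : Big (k :: a :: l) := by
      intro b hb
      rcases List.mem_cons.1 hb with rfl | hb
      · exact hk
      · exact hl b hb
    have hak : Big ((a + k) :: l) := by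
      intro b hb
      rcases List.mem_cons.1 hb with rfl | hb
      · omega
      · exact hl.tail b hb
    have hs1 : Summable fun m : ℕ =>
        A.indicator (fun m => ((m : ℝ) ^ a)⁻¹ * Z l (A ∩ Iio m) * P k (A ∩ Iio m)) m := by
      refine Summable.of_nonneg_of_le (fun m => indicator_nonneg (fun m _ => mul_nonneg
        (mul_nonneg (pow_nonneg' a m) (Z_bd l hl.tail _).1) (Pool.Agent.H8.TS.P_nonneg _ _)) m)
        (fun m => ?_) ((Z_summable hl A).mul_right (P k A))
      by_cases hm : m ∈ A
      · rw [indicator_of_mem hm, indicator_of_mem hm]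
        exact mul_le_mul_of_nonneg_left (P_mono hk inter_subset_left)
          (mul_nonneg (pow_nonneg' a m) (Z_bd l hl.tail _).1)
      · rw [indicator_of_notMem hm, indicator_of_notMem hm, zero_mul]
    have hs3 : Summable fun m : ℕ =>
        A.indicator (fun m => ((m : ℝ) ^ a)⁻¹ * Z l (A ∩ Iio m) * P k (A ∩ Ioi m)) m := by
      refine Summable.of_nonneg_of_le (fun m => indicator_nonneg (fun m _ => mul_nonneg
        (mul_nonneg (pow_nonneg' a m) (Z_bd l hl.tail _).1) (Pool.Agent.H8.TS.P_nonneg _ _)) m)
        (fun m => ?_) ((Z_summable hl A).mul_right (P k A))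
      by_cases hm : m ∈ A
      · rw [indicator_of_mem hm, indicator_of_mem hm]
        exact mul_le_mul_of_nonneg_left (P_mono hk inter_subset_left)
          (mul_nonneg (pow_nonneg' a m) (Z_bd l hl.tail _).1)
      · rw [indicator_of_notMem hm, indicator_of_notMem hm, zero_mul]
    have hs2 : Summable fun m : ℕ =>
        A.indicator (fun m => ((m : ℝ) ^ (a + k))⁻¹ * Z l (A ∩ Iio m)) m := Z_summable hak A
    have h1 : P k A * Z (a :: l) A = ∑' m : ℕ,
        (A.indicator (fun m => ((m : ℝ) ^ a)⁻¹ * Z l (A ∩ Iio m) * P k (A ∩ Iio m)) m +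
        A.indicator (fun m => ((m : ℝ) ^ (a + k))⁻¹ * Z l (A ∩ Iio m)) m +
        A.indicator (fun m => ((m : ℝ) ^ a)⁻¹ * Z l (A ∩ Iio m) * P k (A ∩ Ioi m)) m) := by
      rw [Z, ← tsum_mul_left]
      refine tsum_congr fun m => ?_
      by_cases hm : m ∈ A
      · simp only [indicator_of_mem hm]
        rw [P_split hk A hm, pow_add, mul_inv]
        ring
      · simp only [indicator_of_notMem hm]
        ring
    rw [h1, Summable.tsum_add (hs1.add hs2) hs3, Summable.tsum_add hs1 hs2, third hk hl]
    have h2 : ∑' m : ℕ, A.indicator (fun m => ((m : ℝ) ^ (a + k))⁻¹ * Z l (A ∩ Iio m)) m =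
        Z ((a + k) :: l) A := rfl
    rw [h2]
    have h3 : ∑' m : ℕ, A.indicator (fun m => ((m : ℝ) ^ a)⁻¹ * Z l (A ∩ Iio m) * P k (A ∩ Iio m)) m =
        (((stf k l).map (List.cons a)).map fun w => Z w A).sum := by
      have h4 : ∀ m : ℕ, A.indicator
          (fun m => ((m : ℝ) ^ a)⁻¹ * Z l (A ∩ Iio m) * P k (A ∩ Iio m)) m =
          ((stf k l).map fun w =>
            A.indicator (fun m => ((m : ℝ) ^ a)⁻¹ * Z w (A ∩ Iio m)) m).sum := by
        intro m
        by_cases hm : m ∈ A
        · simp only [indicator_of_mem hm]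
          rw [mul_assoc, mul_comm (Z l (A ∩ Iio m)), ih hl.tail (A ∩ Iio m), ← List.sum_map_mul_left]
        · simp only [indicator_of_notMem hm]
          simp
      rw [tsum_congr h4]
      have hbig : ∀ w ∈ stf k l, Big w := stf_big hk hl.tail
      generalize stf k l = L at hbig
      induction L with
      | nil => simp
      | cons w L ih' =>
        have hw : Big (a :: w) := by
          intro b hb
          rcases List.mem_cons.1 hb with rfl | hb
          · exact ha
          · exact hbig w (by simp) b hb
        have hsL : Summable fun m : ℕ => (L.map fun w =>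
            A.indicator (fun m => ((m : ℝ) ^ a)⁻¹ * Z w (A ∩ Iio m)) m).sum := by
          clear ih' h4
          have hbig' : ∀ w ∈ L, Big w := fun w hw => hbig w (List.mem_cons_of_mem _ hw)
          clear hbig hw
          induction L with
          | nil => simp [summable_zero]
          | cons w L ih'' =>
            have hw : Big (a :: w) := by
              intro b hb
              rcases List.mem_cons.1 hb with rfl | hb
              · exact ha
              · exact hbig' w (by simp) b hb
            simp only [List.map_cons, List.sum_cons]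
            exact (Z_summable hw A).add (ih'' fun w hw => hbig' w (List.mem_cons_of_mem _ hw))
        simp only [List.map_cons, List.sum_cons]
        rw [Summable.tsum_add (Z_summable hw A) hsL]
        have h5 := ih' (fun w hw => hbig w (List.mem_cons_of_mem _ hw))
        rw [h5]
        rfl
    rw [h3]
    simp only [stf, List.map_cons, List.sum_cons]
    ring

end Pool.Agent.H8.EF
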